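import Mathlib

/-! Bounded Siegel discs of rational maps: the inverse linearizing map and the prime end relation. -/

set_option autoImplicit false

open Set Filter Topology Metric

namespace Pool.Agent.H.MP_e98f69_an

/-- the rational function `P / Q` -/
noncomputable def rat (P Q : Polynomial ℂ) : ℂ → ℂ := fun z => P.eval z / Q.eval z

/-- the rotation number `exp (2 π i θ)` -/
noncomputable def rot (θ : ℝ) : ℂ := Complex.exp (2 * Real.pi * Complex.I * (θ : ℂ))

/-- `S` is a bounded rotation domain of `P / Q` conjugate by `φ` to an irrational rotation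
of the unit disc. -/
structure Siegel (P Q : Polynomial ℂ) (S : Set ℂ) (θ : ℝ) (φ : ℂ → ℂ) : Prop where
  hQ : Q ≠ 0
  cop : IsCoprime P Q
  bdd : Bornology.IsBounded S
  op : IsOpen S
  irr : Irrational θ
  diff : DifferentiableOn ℂ φ S
  inj : InjOn φ S
  img : φ '' S = ball (0 : ℂ) 1
  dyn : ∀ z ∈ S, rat P Q z ∈ S ∧ φ (rat P Q z) = rot θ * φ z

lemma norm_rot (θ : ℝ) : ‖rot θ‖ = 1 := by
  unfold rot
  have : (2 * Real.pi * Complex.I * (θ : ℂ)) = ((2 * Real.pi * θ : ℝ) : ℂ) * Complex.I := by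
    push_cast; ring
  rw [this, Complex.norm_exp_ofReal_mul_I]

lemma rot_ne (θ : ℝ) : rot θ ≠ 0 := by
  rw [← norm_pos_iff, norm_rot]; exact one_pos

/-- the closure of the graph of `φ`, seen as a relation between points `ζ` of the closed disc
and points `y` of the closure of `S`; for `|ζ| = 1` the points `y` form the impression of the prime
end `ζ`. -/
def rel (S : Set ℂ) (φ : ℂ → ℂ) (ζ y : ℂ) : Prop :=
  ∀ ε > 0, ∃ z ∈ S, ‖φ z - ζ‖ < ε ∧ ‖z - y‖ < ε

section
variable {S : Set ℂ} {φ : ℂ → ℂ}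

theorem rel_phi {z : ℂ} (hz : z ∈ S) : rel S φ (φ z) z := fun ε hε =>
  ⟨z, hz, by simpa using hε, by simpa using hε⟩

theorem rel_iff {ζ y : ℂ} : rel S φ ζ y ↔ (ζ, y) ∈ closure ((fun z => (φ z, z)) '' S) := by
  rw [Metric.mem_closure_iff]
  constructor
  · intro h ε hε
    obtain ⟨z, hz, h1, h2⟩ := h ε hε
    refine ⟨(φ z, z), ⟨z, hz, rfl⟩, ?_⟩
    rw [Prod.dist_eq, max_lt_iff]
    rw [dist_comm, dist_eq_norm, dist_comm, dist_eq_norm]
    exact ⟨h1, h2⟩
  · intro h ε hε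
    obtain ⟨_, ⟨z, hz, rfl⟩, h1⟩ := h ε hε
    rw [Prod.dist_eq, max_lt_iff] at h1
    rw [dist_comm, dist_eq_norm, dist_comm, dist_eq_norm] at h1
    exact ⟨z, hz, h1⟩

theorem rel_seq {ζ y : ℂ} (h : rel S φ ζ y) : ∃ u : ℕ → ℂ, (∀ n, u n ∈ S) ∧
    Tendsto (fun n => φ (u n)) atTop (𝓝 ζ) ∧ Tendsto u atTop (𝓝 y) := by
  rw [rel_iff] at h
  obtain ⟨v, hv, hv2⟩ := mem_closure_iff_seq_limit.1 h
  choose u hu hu2 using hv
  have h1 : v = fun n => (φ (u n), u n) := by
    funext n; exact (hu2 n).symm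
  rw [h1] at hv2
  exact ⟨u, hu, (continuous_fst.tendsto _).comp hv2, (continuous_snd.tendsto _).comp hv2⟩

theorem rel_of_seq {ζ y : ℂ} (u : ℕ → ℂ) (hu : ∀ n, u n ∈ S)
    (h1 : Tendsto (fun n => φ (u n)) atTop (𝓝 ζ)) (h2 : Tendsto u atTop (𝓝 y)) :
    rel S φ ζ y := by
  intro ε hε
  have e1 := (Metric.tendsto_nhds.1 h1) ε hε
  have e2 := (Metric.tendsto_nhds.1 h2) ε hε
  obtain ⟨n, hn1, hn2⟩ := (e1.and e2).exists
  exact ⟨u n, hu n, by rwa [dist_eq_norm] at hn1, by rwa [dist_eq_norm] at hn2⟩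

theorem rel_closure {ζ y : ℂ} (h : rel S φ ζ y) : y ∈ closure S := by
  obtain ⟨u, hu, -, h2⟩ := rel_seq h
  exact mem_closure_of_tendsto h2 (Eventually.of_forall hu)

theorem rel_isClosed : IsClosed {p : ℂ × ℂ | rel S φ p.1 p.2} := by
  have : {p : ℂ × ℂ | rel S φ p.1 p.2} = closure ((fun z => (φ z, z)) '' S) := by
    ext p
    exact rel_iff
  rw [this]
  exact isClosed_closure

end

namespace Siegel

variable {P Q : Polynomial ℂ} {S : Set ℂ} {θ : ℝ} {φ : ℂ → ℂ} (X : Siegel P Q S θ φ)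

/-- the inverse of `φ` -/
noncomputable def psi (_ : Siegel P Q S θ φ) : ℂ → ℂ := Function.invFunOn φ S

include X

theorem psi_mem {w : ℂ} (hw : w ∈ ball (0 : ℂ) 1) : X.psi w ∈ S := by
  rw [← X.img] at hw
  exact Function.invFunOn_mem hw

theorem phi_psi {w : ℂ} (hw : w ∈ ball (0 : ℂ) 1) : φ (X.psi w) = w := by
  rw [← X.img] at hw
  exact Function.invFunOn_eq hw

theorem phi_mem {z : ℂ} (hz : z ∈ S) : φ z ∈ ball (0 : ℂ) 1 := by
  rw [← X.img]; exact mem_image_of_mem _ hz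

theorem psi_phi {z : ℂ} (hz : z ∈ S) : X.psi (φ z) = z :=
  X.inj (X.psi_mem (X.phi_mem hz)) hz (X.phi_psi (X.phi_mem hz))

theorem phi_an {z : ℂ} (hz : z ∈ S) : AnalyticAt ℂ φ z :=
  X.diff.analyticAt (X.op.mem_nhds hz)

theorem not_ev_const {z : ℂ} (hz : z ∈ S) : ¬ ∀ᶠ w in 𝓝 z, φ w = φ z := by
  intro h
  have h1 : ∀ᶠ w in 𝓝 z, w = z := by
    filter_upwards [h, X.op.mem_nhds hz] with w hw hwS
    exact X.inj hwS hz hw
  have h2 : ∀ᶠ w in 𝓝[≠] z, w = z := h1.filter_mono nhdsWithin_le_nhds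
  obtain ⟨w, hw1, hw2⟩ := (h2.and self_mem_nhdsWithin).exists
  exact hw2 hw1

theorem nhds_le {z : ℂ} (hz : z ∈ S) : 𝓝 (φ z) ≤ map φ (𝓝 z) :=
  (X.phi_an hz).eventually_constant_or_nhds_le_map_nhds.resolve_left (X.not_ev_const hz)

theorem psi_cont {w : ℂ} (hw : w ∈ ball (0 : ℂ) 1) : ContinuousAt X.psi w := by
  have hz := X.psi_mem hw
  intro V hV
  have h1 : V ∩ S ∈ 𝓝 (X.psi w) := inter_mem hV (X.op.mem_nhds hz)
  have h2 : φ '' (V ∩ S) ∈ map φ (𝓝 (X.psi w)) := image_mem_map h1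
  have h3 := X.nhds_le hz h2
  rw [X.phi_psi hw] at h3
  rw [mem_map]
  filter_upwards [h3] with u hu
  obtain ⟨v, hv, rfl⟩ := hu
  show X.psi (φ v) ∈ V
  rw [X.psi_phi hv.2]
  exact hv.1

theorem psi_an {w : ℂ} (hw : w ∈ ball (0 : ℂ) 1) : AnalyticAt ℂ X.psi w := by
  apply Complex.analyticAt_of_differentiable_on_punctured_nhds_of_continuousAt _ (X.psi_cont hw)
  have hz := X.psi_mem hw
  -- the derivative of `φ` has isolated zeros
  have hd : AnalyticAt ℂ (deriv φ) (X.psi w) := (X.phi_an hz).deriv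
  have h1 : ∀ᶠ u in 𝓝[≠] (X.psi w), deriv φ u ≠ 0 := by
    rcases hd.eventually_eq_zero_or_eventually_ne_zero with h | h
    · exfalso
      apply X.not_ev_const hz
      obtain ⟨r, hr, hr2⟩ := Metric.eventually_nhds_iff_ball.1 (h.and (X.op.mem_nhds hz))
      filter_upwards [ball_mem_nhds _ hr] with u hu
      have hop : IsOpen (ball (X.psi w) r) := isOpen_ball
      refine hop.is_const_of_deriv_eq_zero
        (convex_ball _ _).isPreconnected ?_ ?_ hu (mem_ball_self hr)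
      · intro v hv
        exact ((X.phi_an (hr2 v hv).2).differentiableAt).differentiableWithinAt
      · intro v hv
        exact (hr2 v hv).1
    · exact h
  have h2 : Tendsto X.psi (𝓝[≠] w) (𝓝[≠] (X.psi w)) := by
    apply tendsto_nhdsWithin_iff.2 ⟨(X.psi_cont hw).tendsto.mono_left nhdsWithin_le_nhds, ?_⟩
    filter_upwards [self_mem_nhdsWithin, nhdsWithin_le_nhds (isOpen_ball.mem_nhds hw)] with u hu hu2
    intro h
    apply hu
    have h' : X.psi u = X.psi w := h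
    have := congrArg φ h'
    rwa [X.phi_psi hu2, X.phi_psi hw] at this
  filter_upwards [h2.eventually h1, nhdsWithin_le_nhds (isOpen_ball.mem_nhds hw)] with u hu hu2
  have h3 : HasDerivAt φ (deriv φ (X.psi u)) (X.psi u) :=
    (X.phi_an (X.psi_mem hu2)).differentiableAt.hasDerivAt
  refine (HasDerivAt.of_local_left_inverse (X.psi_cont hu2) h3 hu ?_).differentiableAt
  filter_upwards [isOpen_ball.mem_nhds hu2] with v hv
  exact X.phi_psi hv

theorem psi_diff : DifferentiableOn ℂ X.psi (ball 0 1) := fun _ hw =>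
  (X.psi_an hw).differentiableAt.differentiableWithinAt

theorem deriv_mul {z : ℂ} (hz : z ∈ S) : deriv φ z * deriv X.psi (φ z) = 1 := by
  have hw := X.phi_mem hz
  have h1 : HasDerivAt X.psi (deriv X.psi (φ z)) (φ z) := (X.psi_an hw).differentiableAt.hasDerivAt
  have h2 : HasDerivAt φ (deriv φ z) (X.psi (φ z)) := by
    rw [X.psi_phi hz]
    exact (X.phi_an hz).differentiableAt.hasDerivAt
  have h3 := h2.comp (φ z) h1
  have h4 : (φ ∘ X.psi) =ᶠ[𝓝 (φ z)] id := by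
    filter_upwards [isOpen_ball.mem_nhds hw] with v hv
    exact X.phi_psi hv
  have h5 := (h3.congr_of_eventuallyEq h4.symm).unique (hasDerivAt_id (φ z))
  exact h5

theorem deriv_phi_ne {z : ℂ} (hz : z ∈ S) : deriv φ z ≠ 0 := by
  intro h
  have := X.deriv_mul hz
  rw [h, zero_mul] at this
  exact zero_ne_one this

omit X in
theorem rot_mem {w : ℂ} (hw : w ∈ ball (0 : ℂ) 1) : rot θ * w ∈ ball (0 : ℂ) 1 := by
  rw [mem_ball_zero_iff, norm_mul, norm_rot, one_mul]
  exact mem_ball_zero_iff.1 hw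

theorem rat_psi {w : ℂ} (hw : w ∈ ball (0 : ℂ) 1) : rat P Q (X.psi w) = X.psi (rot θ * w) := by
  have h := X.dyn _ (X.psi_mem hw)
  rw [X.phi_psi hw] at h
  rw [← h.2, X.psi_phi h.1]

theorem rat_psi_iter (n : ℕ) {w : ℂ} (hw : w ∈ ball (0 : ℂ) 1) :
    (rat P Q)^[n] (X.psi w) = X.psi (rot θ ^ n * w) ∧ rot θ ^ n * w ∈ ball (0 : ℂ) 1 := by
  induction n with
  | zero => simpa using hw
  | succ n ih =>
    rw [Function.iterate_succ_apply', ih.1, X.rat_psi ih.2, pow_succ']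
    refine ⟨by rw [mul_assoc], ?_⟩
    rw [mul_assoc]
    exact rot_mem ih.2

omit X in
theorem zero_mem : (0 : ℂ) ∈ ball (0 : ℂ) 1 := mem_ball_self one_pos

/-! ### no poles on the closure -/

theorem exists_bound : ∃ R : ℝ, 0 ≤ R ∧ ∀ z ∈ closure S, ‖z‖ ≤ R ∧ ‖P.eval z‖ ≤ R * ‖Q.eval z‖ := by
  obtain ⟨R, hR⟩ := X.bdd.exists_norm_le
  refine ⟨max R 0, le_max_right _ _, ?_⟩
  have hD : Dense {z : ℂ | Q.eval z ≠ 0} := by
    have hfin : {z : ℂ | Q.eval z = 0}.Finite := by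
      have : {z : ℂ | Q.eval z = 0} ⊆ (Q.roots.toFinset : Set ℂ) := by
        intro z hz
        simp only [Finset.mem_coe, Multiset.mem_toFinset]
        exact (Polynomial.mem_roots X.hQ).2 hz
      exact (Finset.finite_toSet _).subset this
    exact hfin.countable.dense_compl ℂ
  have hcl : closure S ⊆ closure (S ∩ {z : ℂ | Q.eval z ≠ 0}) := by
    apply closure_minimal _ isClosed_closure
    exact hD.open_subset_closure_inter X.op
  have hclosed : IsClosed {z : ℂ | ‖z‖ ≤ max R 0 ∧ ‖P.eval z‖ ≤ max R 0 * ‖Q.eval z‖} := by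
    apply IsClosed.inter
    · exact isClosed_le continuous_norm continuous_const
    · exact isClosed_le P.continuous.norm (continuous_const.mul Q.continuous.norm)
  have hsub : S ∩ {z : ℂ | Q.eval z ≠ 0} ⊆
      {z : ℂ | ‖z‖ ≤ max R 0 ∧ ‖P.eval z‖ ≤ max R 0 * ‖Q.eval z‖} := by
    rintro z ⟨hzS, hzQ⟩
    refine ⟨(hR z hzS).trans (le_max_left _ _), ?_⟩
    have h1 := hR _ (X.dyn z hzS).1
    have h2 : ‖P.eval z‖ = ‖rat P Q z‖ * ‖Q.eval z‖ := by
      unfold rat
      rw [norm_div, div_mul_cancel₀ _ (norm_ne_zero_iff.2 hzQ)]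
    rw [h2]
    exact mul_le_mul_of_nonneg_right (h1.trans (le_max_left _ _)) (norm_nonneg _)
  intro z hz
  exact closure_minimal hsub hclosed (hcl hz)

theorem Q_ne {z : ℂ} (hz : z ∈ closure S) : Q.eval z ≠ 0 := by
  intro h
  obtain ⟨R, -, hR⟩ := X.exists_bound
  have h1 := (hR z hz).2
  rw [h, norm_zero, mul_zero] at h1
  have h2 : P.eval z = 0 := norm_le_zero_iff.1 h1
  obtain ⟨a, b, hab⟩ := X.cop
  have h3 := congrArg (Polynomial.eval z) hab
  simp [h, h2] at h3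

theorem rat_diffAt {z : ℂ} (hz : z ∈ closure S) : DifferentiableAt ℂ (rat P Q) z :=
  P.differentiableAt.fun_div Q.differentiableAt (X.Q_ne hz)

theorem rat_cont {z : ℂ} (hz : z ∈ closure S) : ContinuousAt (rat P Q) z :=
  (X.rat_diffAt hz).continuousAt

theorem rat_an {z : ℂ} (hz : z ∈ closure S) : AnalyticAt ℂ (rat P Q) z := by
  have hop : IsOpen {z : ℂ | Q.eval z ≠ 0} := isOpen_ne_fun (by fun_prop) continuous_const
  have : DifferentiableOn ℂ (rat P Q) {z : ℂ | Q.eval z ≠ 0} := fun w hw =>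
    (P.differentiableAt.fun_div Q.differentiableAt hw).differentiableWithinAt
  exact this.analyticAt (hop.mem_nhds (X.Q_ne hz))

theorem rat_mem_closure {z : ℂ} (hz : z ∈ closure S) : rat P Q z ∈ closure S := by
  have hc : ContinuousOn (rat P Q) (closure S) := fun w hw => (X.rat_cont hw).continuousWithinAt
  have hm : MapsTo (rat P Q) S S := fun z hz => (X.dyn z hz).1
  exact hm.closure_of_continuousOn hc hz

/-! ### the relation -/

theorem rel_norm_le {ζ y : ℂ} (h : rel S φ ζ y) : ‖ζ‖ ≤ 1 := by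
  obtain ⟨u, hu, h1, -⟩ := rel_seq h
  refine le_of_tendsto h1.norm (Eventually.of_forall fun n => ?_)
  exact (mem_ball_zero_iff.1 (X.phi_mem (hu n))).le

theorem rel_inner {ζ y : ℂ} (h : rel S φ ζ y) (hζ : ‖ζ‖ < 1) : y = X.psi ζ := by
  obtain ⟨u, hu, h1, h2⟩ := rel_seq h
  have h3 := (X.psi_cont (mem_ball_zero_iff.2 hζ)).tendsto.comp h1
  refine tendsto_nhds_unique h2 (h3.congr fun n => ?_)
  exact X.psi_phi (hu n)

theorem rel_norm_eq {ζ y : ℂ} (h : rel S φ ζ y) (hy : y ∉ S) : ‖ζ‖ = 1 := by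
  refine le_antisymm (X.rel_norm_le h) ?_
  by_contra hlt
  push Not at hlt
  apply hy
  rw [X.rel_inner h hlt]
  exact X.psi_mem (mem_ball_zero_iff.2 hlt)

theorem rel_notMem {ζ y : ℂ} (h : rel S φ ζ y) (hζ : ‖ζ‖ = 1) : y ∉ S := by
  intro hy
  obtain ⟨u, hu, h1, h2⟩ := rel_seq h
  have h3 : Tendsto (fun n => φ (u n)) atTop (𝓝 (φ y)) :=
    (X.phi_an hy).continuousAt.tendsto.comp h2
  have h4 := tendsto_nhds_unique h1 h3
  have h5 := mem_ball_zero_iff.1 (X.phi_mem hy)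
  rw [← h4, hζ] at h5
  exact lt_irrefl _ h5

theorem rel_frontier {ζ y : ℂ} (h : rel S φ ζ y) (hζ : ‖ζ‖ = 1) : y ∈ frontier S := by
  rw [frontier, X.op.interior_eq]
  exact ⟨rel_closure h, X.rel_notMem h hζ⟩

theorem exists_rel {y : ℂ} (hy : y ∈ closure S) : ∃ ζ, rel S φ ζ y := by
  obtain ⟨u, hu, hu2⟩ := mem_closure_iff_seq_limit.1 hy
  have hb : ∀ n, φ (u n) ∈ closedBall (0 : ℂ) 1 := fun n =>
    ball_subset_closedBall (X.phi_mem (hu n))
  obtain ⟨ζ, -, s, hs, hs2⟩ := (isCompact_closedBall (0 : ℂ) 1).tendsto_subseq hb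
  exact ⟨ζ, rel_of_seq (fun n => u (s n)) (fun n => hu _) hs2 (hu2.comp hs.tendsto_atTop)⟩

theorem exists_rel' {ζ : ℂ} (hζ : ‖ζ‖ ≤ 1) : ∃ y, rel S φ ζ y := by
  -- points of the disc tending to `ζ`
  have hcl : ζ ∈ closure (ball (0 : ℂ) 1) := by
    rw [closure_ball _ one_ne_zero]
    exact mem_closedBall_zero_iff.2 hζ
  obtain ⟨v, hv, hv2⟩ := mem_closure_iff_seq_limit.1 hcl
  have hcomp : IsCompact (closure S) := X.bdd.isCompact_closure
  obtain ⟨y, -, s, hs, hs2⟩ := hcomp.tendsto_subseq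
    (fun n => subset_closure (X.psi_mem (hv n)))
  refine ⟨y, rel_of_seq (fun n => X.psi (v (s n))) (fun n => X.psi_mem (hv _)) ?_ hs2⟩
  refine (hv2.comp hs.tendsto_atTop).congr fun n => ?_
  exact (X.phi_psi (hv _)).symm

theorem exists_rel_frontier {y : ℂ} (hy : y ∈ frontier S) : ∃ ζ, ‖ζ‖ = 1 ∧ rel S φ ζ y := by
  rw [frontier, X.op.interior_eq] at hy
  obtain ⟨ζ, h⟩ := X.exists_rel hy.1
  exact ⟨ζ, X.rel_norm_eq h hy.2, h⟩

theorem rel_rat {ζ y : ℂ} (h : rel S φ ζ y) : rel S φ (rot θ * ζ) (rat P Q y) := by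
  obtain ⟨u, hu, h1, h2⟩ := rel_seq h
  refine rel_of_seq (fun n => rat P Q (u n)) (fun n => (X.dyn _ (hu n)).1) ?_ ?_
  · refine (h1.const_mul (rot θ)).congr fun n => ?_
    exact ((X.dyn _ (hu n)).2).symm
  · exact (X.rat_cont (rel_closure h)).tendsto.comp h2

theorem rel_iter (n : ℕ) {ζ y : ℂ} (h : rel S φ ζ y) :
    rel S φ (rot θ ^ n * ζ) ((rat P Q)^[n] y) := by
  induction n with
  | zero => simpa using h
  | succ n ih =>
    rw [Function.iterate_succ_apply', pow_succ', mul_assoc]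
    exact X.rel_rat ih

omit X in
theorem norm_rot_pow_mul (n : ℕ) (ζ : ℂ) : ‖rot θ ^ n * ζ‖ = ‖ζ‖ := by
  rw [norm_mul, norm_pow, norm_rot, one_pow, one_mul]

theorem rat_frontier {y : ℂ} (hy : y ∈ frontier S) : rat P Q y ∈ frontier S := by
  obtain ⟨ζ, hζ, h⟩ := X.exists_rel_frontier hy
  refine X.rel_frontier (X.rel_rat h) ?_
  rw [norm_mul, norm_rot, one_mul, hζ]

theorem iter_frontier (n : ℕ) {y : ℂ} (hy : y ∈ frontier S) : (rat P Q)^[n] y ∈ frontier S := by
  induction n with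
  | zero => simpa using hy
  | succ n ih =>
    rw [Function.iterate_succ_apply']
    exact X.rat_frontier ih

omit X in
theorem frontier_closure {y : ℂ} (hy : y ∈ frontier S) : y ∈ closure S := frontier_subset_closure hy

theorem iter_an (n : ℕ) {y : ℂ} (hy : y ∈ closure S) : AnalyticAt ℂ ((rat P Q)^[n]) y := by
  induction n generalizing y with
  | zero => simpa using analyticAt_id
  | succ n ih =>
    rw [Function.iterate_succ]
    exact (ih (X.rat_mem_closure hy)).comp (X.rat_an hy)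

theorem iter_mem_closure (n : ℕ) {y : ℂ} (hy : y ∈ closure S) : (rat P Q)^[n] y ∈ closure S := by
  induction n with
  | zero => simpa using hy
  | succ n ih =>
    rw [Function.iterate_succ_apply']
    exact X.rat_mem_closure ih

theorem rel_isCompact : IsCompact {p : ℂ × ℂ | rel S φ p.1 p.2} := by
  have h1 : IsCompact (closedBall (0 : ℂ) 1 ×ˢ closure S) :=
    (isCompact_closedBall _ _).prod X.bdd.isCompact_closure
  refine h1.of_isClosed_subset rel_isClosed ?_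
  rintro ⟨ζ, y⟩ h
  exact ⟨mem_closedBall_zero_iff.2 (X.rel_norm_le h), rel_closure h⟩

end Siegel

end Pool.Agent.H.MP_e98f69_an
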