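import Pool.Agent.H.MP_e98f69_an.DerivF

/-! Degenerate impressions, boundary values and the growth estimate. -/

set_option autoImplicit false

open Set Filter Topology Metric MeasureTheory

namespace Pool.Agent.H.MP_e98f69_an

lemma circleAverage_eq_haar {E : Type*} [NormedAddCommGroup E] [NormedSpace ℝ E] (f : ℂ → E)
    (r : ℝ) : Real.circleAverage f 0 r =
      ∫ t : UnitAddCircle, f (r * toC t) ∂AddCircle.haarAddCircle := by
  have h1 : (AddCircle.haarAddCircle : Measure UnitAddCircle) = volume := by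
    have := AddCircle.volume_eq_smul_haarAddCircle (T := 1)
    rw [this, ENNReal.ofReal_one, one_smul]
  rw [h1, ← UnitAddCircle.intervalIntegral_preimage 0]
  unfold Real.circleAverage
  have h2 : ∀ a : ℝ, f (r * toC (a : UnitAddCircle)) = (fun x => f (circleMap 0 r x))
      (2 * Real.pi * a) := by
    intro a
    simp only
    congr 1
    rw [toC_coe, circleMap, zero_add]
    congr 2
    push_cast
    ring
  simp only [h2]
  rw [intervalIntegral.integral_comp_mul_left (fun x => f (circleMap 0 r x))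
    Real.two_pi_pos.ne']
  simp

/-- the impression of the prime end `ζ` is a single point -/
def Deg (S : Set ℂ) (φ : ℂ → ℂ) (ζ : ℂ) : Prop :=
  ∀ ε > 0, ∃ δ > 0, ∀ z ∈ S, ∀ z' ∈ S, ‖φ z - ζ‖ < δ → ‖φ z' - ζ‖ < δ → ‖z - z'‖ < ε

lemma Deg.lim {S : Set ℂ} {φ : ℂ → ℂ} {ζ y : ℂ} (h : Deg S φ ζ) (hy : rel S φ ζ y) :
    ∀ ε > 0, ∃ δ > 0, ∀ z ∈ S, ‖φ z - ζ‖ < δ → ‖z - y‖ < ε := by
  intro ε hε
  obtain ⟨δ, hδ, h1⟩ := h (ε / 2) (by positivity)
  refine ⟨δ, hδ, fun z hz hz2 => ?_⟩
  obtain ⟨z', hz', h2, h3⟩ := hy (min δ (ε / 2)) (by positivity)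
  have h4 := h1 z hz z' hz' hz2 (h2.trans_le (min_le_left _ _))
  have h5 := h3.trans_le (min_le_right _ _)
  have e : z - y = (z - z') + (z' - y) := by ring
  rw [e]
  refine (norm_add_le _ _).trans_lt ?_
  linarith

lemma Deg.unique {S : Set ℂ} {φ : ℂ → ℂ} {ζ y y' : ℂ} (h : Deg S φ ζ) (hy : rel S φ ζ y)
    (hy' : rel S φ ζ y') : y' = y := by
  apply eq_of_dist_eq_zero
  refine le_antisymm (le_of_forall_pos_lt_add fun ε hε => ?_) dist_nonneg
  rw [zero_add]
  obtain ⟨δ, hδ, h1⟩ := h.lim hy (ε / 2) (by positivity)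
  obtain ⟨z, hz, h2, h3⟩ := hy' (min δ (ε / 2)) (by positivity)
  have h4 := h1 z hz (h2.trans_le (min_le_left _ _))
  have h5 := h3.trans_le (min_le_right _ _)
  rw [dist_eq_norm]
  have e : y' - y = -(z - y') + (z - y) := by ring
  rw [e]
  refine (norm_add_le _ _).trans_lt ?_
  rw [norm_neg]
  linarith

/-- radii tending to `1` -/
noncomputable def rr (k : ℕ) : ℝ := 1 - 1 / ((k : ℝ) + 2)

lemma rr_pos (k : ℕ) : 0 < rr k := by
  unfold rr
  have : 1 / ((k : ℝ) + 2) < 1 := by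
    rw [div_lt_one (by positivity)]
    have : (0 : ℝ) ≤ k := by positivity
    linarith
  linarith

lemma rr_lt (k : ℕ) : rr k < 1 := by
  unfold rr
  have : 0 < 1 / ((k : ℝ) + 2) := by positivity
  linarith

lemma rr_tendsto : Tendsto rr atTop (𝓝 1) := by
  unfold rr
  have h1 : Tendsto (fun k : ℕ => 1 / ((k : ℝ) + 2)) atTop (𝓝 0) := by
    apply Tendsto.div_atTop tendsto_const_nhds
    exact tendsto_atTop_add_const_right _ _ tendsto_natCast_atTop_atTop
  simpa using tendsto_const_nhds.sub h1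

namespace Siegel

variable {P Q : Polynomial ℂ} {S : Set ℂ} {θ : ℝ} {φ : ℂ → ℂ} (X : Siegel P Q S θ φ)

/-- boundary values -/
noncomputable def Y (X : Siegel P Q S θ φ) (t : UnitAddCircle) : ℂ :=
  (X.exists_rel' (ζ := toC t) (norm_toC t).le).choose

include X

theorem rel_Y (t : UnitAddCircle) : rel S φ (toC t) (X.Y t) :=
  (X.exists_rel' (ζ := toC t) (norm_toC t).le).choose_spec

theorem Y_mem (t : UnitAddCircle) : X.Y t ∈ closure S := rel_closure (X.rel_Y t)

theorem rad_mem (k : ℕ) (t : UnitAddCircle) : (rr k : ℂ) * toC t ∈ ball (0 : ℂ) 1 := by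
  rw [mem_ball_zero_iff, norm_mul, norm_toC, mul_one, Complex.norm_real, Real.norm_eq_abs,
    abs_of_pos (rr_pos k)]
  exact rr_lt k

theorem tendsto_Y {t : UnitAddCircle} (h : Deg S φ (toC t)) :
    Tendsto (fun k => X.psi ((rr k : ℂ) * toC t)) atTop (𝓝 (X.Y t)) := by
  rw [Metric.tendsto_atTop]
  intro ε hε
  obtain ⟨δ, hδ, h1⟩ := h.lim (X.rel_Y t) ε hε
  obtain ⟨N, hN⟩ := Metric.tendsto_atTop.1 rr_tendsto δ hδ
  refine ⟨N, fun k hk => ?_⟩
  rw [dist_eq_norm]
  apply h1 _ (X.psi_mem (X.rad_mem k t))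
  rw [X.phi_psi (X.rad_mem k t)]
  have e : (rr k : ℂ) * toC t - toC t = ((rr k : ℂ) - 1) * toC t := by ring
  rw [e, norm_mul, norm_toC, mul_one]
  have h2 := hN k hk
  rw [dist_eq_norm] at h2
  rw [← Complex.ofReal_one, ← Complex.ofReal_sub, Complex.norm_real]
  exact h2

theorem cont_rad (k : ℕ) : Continuous (fun t : UnitAddCircle => X.psi ((rr k : ℂ) * toC t)) := by
  rw [continuous_iff_continuousAt]
  intro t
  have h1 : ContinuousAt (fun t : UnitAddCircle => (rr k : ℂ) * toC t) t :=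
    (continuous_const.mul continuous_toC).continuousAt
  have h2 : ContinuousAt X.psi ((rr k : ℂ) * toC t) := X.psi_cont (X.rad_mem k t)
  exact ContinuousAt.comp (f := fun t : UnitAddCircle => (rr k : ℂ) * toC t) h2 h1

theorem dct {E : Type*} [NormedAddCommGroup E] [NormedSpace ℝ E]
    (hae : ∀ᵐ t ∂(AddCircle.haarAddCircle : Measure UnitAddCircle), Deg S φ (toC t))
    {F : ℂ → E} (hF : ContinuousOn F (closure S)) :
    Tendsto (fun k => Real.circleAverage (fun ζ => F (X.psi ζ)) 0 (rr k)) atTop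
      (𝓝 (∫ t, F (X.Y t) ∂(AddCircle.haarAddCircle : Measure UnitAddCircle))) := by
  simp only [circleAverage_eq_haar]
  obtain ⟨M, hM⟩ := X.bdd.isCompact_closure.exists_bound_of_continuousOn hF
  have hcont : ∀ k, Continuous (fun t : UnitAddCircle => F (X.psi ((rr k : ℂ) * toC t))) := by
    intro k
    exact hF.comp_continuous (X.cont_rad k) (fun t => subset_closure (X.psi_mem (X.rad_mem k t)))
  apply tendsto_integral_of_dominated_convergence (fun _ => M)
  · intro k
    exact (hcont k).aestronglyMeasurable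
  · exact integrable_const _
  · intro k
    exact Eventually.of_forall fun t => hM _ (subset_closure (X.psi_mem (X.rad_mem k t)))
  · filter_upwards [hae] with t ht
    have h1 := X.tendsto_Y ht
    have h2 : Tendsto (fun k => X.psi ((rr k : ℂ) * toC t)) atTop (𝓝[closure S] (X.Y t)) :=
      tendsto_nhdsWithin_iff.2 ⟨h1, Eventually.of_forall fun k =>
        subset_closure (X.psi_mem (X.rad_mem k t))⟩
    exact (hF (X.Y t) (X.Y_mem t)).tendsto.comp h2

/-- the mean value of the boundary values is the centre -/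
theorem mean_Y (hae : ∀ᵐ t ∂(AddCircle.haarAddCircle : Measure UnitAddCircle), Deg S φ (toC t)) :
    ∫ t, X.Y t ∂(AddCircle.haarAddCircle : Measure UnitAddCircle) = X.psi 0 := by
  have h1 := X.dct hae (F := fun z => z) continuousOn_id
  have h2 : ∀ k, Real.circleAverage (fun ζ => X.psi ζ) 0 (rr k) = X.psi 0 := by
    intro k
    have hsub : closedBall (0 : ℂ) |rr k| ⊆ ball 0 1 := by
      rw [abs_of_pos (rr_pos k)]
      exact closedBall_subset_ball (rr_lt k)
    have hd : DiffContOnCl ℂ X.psi (ball 0 |rr k|) := by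
      apply DifferentiableOn.diffContOnCl
      apply X.psi_diff.mono
      exact closure_ball_subset_closedBall.trans hsub
    exact hd.circleAverage
  simp only [h2] at h1
  exact (tendsto_nhds_unique tendsto_const_nhds h1).symm

/-- Lipschitz majorants on the circle -/
noncomputable def maj (_ : Siegel P Q S θ φ) (G : ℂ → ℝ) (k : ℕ) (t : UnitAddCircle) : ℝ :=
  ⨆ z : S, (G z - k * ‖toC t - φ z‖)

theorem nonempty_S : Nonempty S := ⟨⟨X.psi 0, X.psi_mem zero_mem⟩⟩

theorem bdd_maj {G : ℂ → ℝ} {M : ℝ} (hM : ∀ z ∈ closure S, |G z| ≤ M) (k : ℕ) (t : UnitAddCircle) :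
    BddAbove (range fun z : S => (G z - k * ‖toC t - φ z‖)) := by
  refine ⟨M, ?_⟩
  rintro _ ⟨z, rfl⟩
  have h1 := (abs_le.1 (hM z (subset_closure z.2))).2
  have h2 : 0 ≤ (k : ℝ) * ‖toC t - φ z‖ := by positivity
  show G z - k * ‖toC t - φ z‖ ≤ M
  linarith

theorem maj_lip {G : ℂ → ℝ} {M : ℝ} (hM : ∀ z ∈ closure S, |G z| ≤ M) (k : ℕ)
    (t s : UnitAddCircle) : X.maj G k t ≤ X.maj G k s + k * ‖toC t - toC s‖ := by
  have := X.nonempty_S
  unfold maj
  apply ciSup_le
  intro z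
  have h1 := le_ciSup (X.bdd_maj hM k s) z
  have h2 : ‖toC s - φ z‖ ≤ ‖toC t - φ z‖ + ‖toC t - toC s‖ := by
    have e : toC s - φ z = (toC t - φ z) - (toC t - toC s) := by ring
    rw [e]
    exact norm_sub_le _ _
  have h3 : (k : ℝ) * ‖toC s - φ z‖ ≤ k * (‖toC t - φ z‖ + ‖toC t - toC s‖) :=
    mul_le_mul_of_nonneg_left h2 (by positivity)
  linarith

theorem continuous_maj {G : ℂ → ℝ} {M : ℝ} (hM : ∀ z ∈ closure S, |G z| ≤ M) (k : ℕ) :
    Continuous (X.maj G k) := by
  rw [continuous_iff_continuousAt]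
  intro t
  rw [ContinuousAt, tendsto_iff_norm_sub_tendsto_zero]
  have h1 : Tendsto (fun s : UnitAddCircle => (k : ℝ) * ‖toC s - toC t‖) (𝓝 t) (𝓝 0) := by
    have : Continuous (fun s : UnitAddCircle => (k : ℝ) * ‖toC s - toC t‖) :=
      continuous_const.mul ((continuous_toC.sub continuous_const).norm)
    have h2 := this.tendsto t
    simpa using h2
  refine squeeze_zero (fun _ => norm_nonneg _) (fun s => ?_) h1
  rw [Real.norm_eq_abs, abs_le]
  have e1 := X.maj_lip hM k s t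
  have e2 := X.maj_lip hM k t s
  rw [norm_sub_rev (toC t)] at e2
  constructor <;> linarith

theorem le_maj {G : ℂ → ℝ} (hG : ContinuousOn G (closure S)) {M : ℝ}
    (hM : ∀ z ∈ closure S, |G z| ≤ M) (k : ℕ) {t : UnitAddCircle} {y : ℂ}
    (h : rel S φ (toC t) y) : G y ≤ X.maj G k t := by
  obtain ⟨u, hu, h1, h2⟩ := rel_seq h
  have h3 : Tendsto (fun n => G (u n) - k * ‖toC t - φ (u n)‖) atTop (𝓝 (G y - k * ‖toC t - toC t‖)) := by
    apply Tendsto.sub
    · have : Tendsto u atTop (𝓝[closure S] y) := tendsto_nhdsWithin_iff.2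
        ⟨h2, Eventually.of_forall fun n => subset_closure (hu n)⟩
      exact (hG y (rel_closure h)).tendsto.comp this
    · exact (((tendsto_const_nhds (x := toC t)).sub h1).norm).const_mul _
  rw [sub_self, norm_zero, mul_zero, sub_zero] at h3
  refine le_of_tendsto h3 (Eventually.of_forall fun n => ?_)
  exact le_ciSup (X.bdd_maj hM k t) ⟨u n, hu n⟩

theorem maj_abs_le {G : ℂ → ℝ} (hG : ContinuousOn G (closure S)) {M : ℝ}
    (hM : ∀ z ∈ closure S, |G z| ≤ M) (k : ℕ) (t : UnitAddCircle) : |X.maj G k t| ≤ M := by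
  have := X.nonempty_S
  rw [abs_le]
  constructor
  · have h1 := X.le_maj hG hM k (X.rel_Y t)
    have h2 := (abs_le.1 (hM _ (X.Y_mem t))).1
    linarith
  · unfold maj
    apply ciSup_le
    intro z
    have h1 := (abs_le.1 (hM z (subset_closure z.2))).2
    have h2 : 0 ≤ (k : ℝ) * ‖toC t - φ z‖ := by positivity
    linarith

theorem maj_tendsto {G : ℂ → ℝ} (hG : ContinuousOn G (closure S)) {M : ℝ}
    (hM : ∀ z ∈ closure S, |G z| ≤ M) {t : UnitAddCircle} (hdeg : Deg S φ (toC t)) :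
    Tendsto (fun k => X.maj G k t) atTop (𝓝 (G (X.Y t))) := by
  have := X.nonempty_S
  have hM0 : 0 ≤ M := (abs_nonneg _).trans (hM _ (X.Y_mem t))
  rw [Metric.tendsto_atTop]
  intro ε hε
  -- continuity of `G` at `Y t`
  obtain ⟨δ1, hδ1, h1⟩ := Metric.continuousOn_iff.1 hG (X.Y t) (X.Y_mem t) (ε / 2) (by positivity)
  obtain ⟨δ, hδ, h2⟩ := hdeg.lim (X.rel_Y t) δ1 hδ1
  obtain ⟨N, hN⟩ := exists_nat_gt (2 * M / δ)
  refine ⟨N, fun k hk => ?_⟩
  have hlow := X.le_maj hG hM k (X.rel_Y t)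
  have hup : X.maj G k t ≤ G (X.Y t) + ε / 2 := by
    unfold maj
    apply ciSup_le
    intro z
    have hz := subset_closure z.2
    rcases lt_or_ge ‖φ z - toC t‖ δ with h | h
    · have h3 := h2 z z.2 h
      have h4 := h1 z hz (by rw [dist_eq_norm]; exact h3)
      rw [Real.dist_eq, abs_lt] at h4
      have h5 : 0 ≤ (k : ℝ) * ‖toC t - φ z‖ := by positivity
      linarith [h4.2]
    · rw [norm_sub_rev] at h
      have h3 : (N : ℝ) ≤ k := by exact_mod_cast hk
      have h4 : 2 * M ≤ k * ‖toC t - φ z‖ := by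
        rw [div_lt_iff₀ hδ] at hN
        calc 2 * M ≤ N * δ := hN.le
          _ ≤ k * ‖toC t - φ z‖ := by gcongr
      have h5 := (abs_le.1 (hM z hz)).2
      have h6 := (abs_le.1 (hM _ (X.Y_mem t))).1
      linarith
  rw [Real.dist_eq, abs_lt]
  constructor <;> linarith

theorem integral_maj_tendsto {G : ℂ → ℝ} (hG : ContinuousOn G (closure S)) {M : ℝ}
    (hM : ∀ z ∈ closure S, |G z| ≤ M)
    (hae : ∀ᵐ t ∂(AddCircle.haarAddCircle : Measure UnitAddCircle), Deg S φ (toC t)) :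
    Tendsto (fun k => ∫ t, X.maj G k t ∂(AddCircle.haarAddCircle : Measure UnitAddCircle)) atTop
      (𝓝 (∫ t, G (X.Y t) ∂(AddCircle.haarAddCircle : Measure UnitAddCircle))) := by
  apply tendsto_integral_of_dominated_convergence (fun _ => M)
  · intro k
    exact (X.continuous_maj hM k).aestronglyMeasurable
  · exact integrable_const _
  · intro k
    exact Eventually.of_forall fun t => X.maj_abs_le hG hM k t
  · filter_upwards [hae] with t ht
    exact X.maj_tendsto hG hM ht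

/-- uniform upper bound for Birkhoff sums of a continuous function along the boundary -/
theorem birkhoff_le {G : ℂ → ℝ} (hG : ContinuousOn G (closure S))
    (hae : ∀ᵐ t ∂(AddCircle.haarAddCircle : Measure UnitAddCircle), Deg S φ (toC t))
    {ε : ℝ} (hε : 0 < ε) : ∃ N0 : ℕ, ∀ N ≥ N0, ∀ x ∈ frontier S,
      ∑ n ∈ Finset.range N, G ((rat P Q)^[n] x) ≤
        N * ((∫ t, G (X.Y t) ∂(AddCircle.haarAddCircle : Measure UnitAddCircle)) + ε) := by
  obtain ⟨M, hM⟩ := X.bdd.isCompact_closure.exists_bound_of_continuousOn hG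
  have hM' : ∀ z ∈ closure S, |G z| ≤ M := fun z hz => hM z hz
  have h1 := X.integral_maj_tendsto hG hM' hae
  obtain ⟨k, hk⟩ := (h1.eventually (gt_mem_nhds (lt_add_of_pos_right _ (half_pos hε)))).exists
  obtain ⟨N0, hN0⟩ := weyl_real θ X.irr (X.continuous_maj hM' k) (ε / 2) (by positivity)
  refine ⟨N0, fun N hN x hx => ?_⟩
  obtain ⟨ζ, hζ, hrel⟩ := X.exists_rel_frontier hx
  obtain ⟨t, rfl⟩ := exists_toC hζ
  have h2 : ∀ n, G ((rat P Q)^[n] x) ≤ X.maj G k (n • (θ : UnitAddCircle) + t) := by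
    intro n
    apply X.le_maj hG hM'
    rw [toC_add, toC_nsmul, toC_rot]
    exact X.rel_iter n hrel
  calc ∑ n ∈ Finset.range N, G ((rat P Q)^[n] x)
      ≤ ∑ n ∈ Finset.range N, X.maj G k (n • (θ : UnitAddCircle) + t) :=
        Finset.sum_le_sum fun n _ => h2 n
    _ ≤ N * ((∫ t, X.maj G k t ∂(AddCircle.haarAddCircle : Measure UnitAddCircle)) + ε / 2) :=
        hN0 N hN t
    _ ≤ _ := mul_le_mul_of_nonneg_left (by linarith) (Nat.cast_nonneg _)

/-- the derivative of the iterates grows subexponentially, uniformly on the boundary -/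
theorem growth (hae : ∀ᵐ t ∂(AddCircle.haarAddCircle : Measure UnitAddCircle), Deg S φ (toC t))
    {ε : ℝ} (hε : 0 < ε) : ∃ N0 : ℕ, ∀ N ≥ N0, ∀ x ∈ frontier S,
      ‖deriv (rat P Q)^[N] x‖ ≤ Real.exp (N * ε) := by
  obtain ⟨ρ, hρ, h⟩ := X.avg_GG (ε := ε / 2) (by positivity)
  have hG := X.GG_contOn hρ
  have h1 := X.dct hae hG
  have h2 : ∫ t, GG P Q ρ (X.Y t) ∂(AddCircle.haarAddCircle : Measure UnitAddCircle) ≤ ε / 2 :=
    le_of_tendsto h1 (Eventually.of_forall fun k => h _ (rr_pos k) (rr_lt k))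
  obtain ⟨N0, hN0⟩ := X.birkhoff_le hG hae (ε := ε / 2) (by positivity)
  refine ⟨N0, fun N hN x hx => ?_⟩
  have hprod : ∀ N, ‖deriv (rat P Q)^[N] x‖ ≤
      Real.exp (∑ n ∈ Finset.range N, GG P Q ρ ((rat P Q)^[n] x)) := by
    intro N
    induction N with
    | zero => simp
    | succ N ih =>
      have hcl : (rat P Q)^[N] x ∈ closure S :=
        X.iter_mem_closure N (frontier_subset_closure hx)
      have hd1 : HasDerivAt (rat P Q) (deriv (rat P Q) ((rat P Q)^[N] x)) ((rat P Q)^[N] x) :=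
        (X.rat_diffAt hcl).hasDerivAt
      have hd2 : HasDerivAt ((rat P Q)^[N]) (deriv ((rat P Q)^[N]) x) x :=
        (X.iter_an N (frontier_subset_closure hx)).differentiableAt.hasDerivAt
      have hd3 := hd1.comp x hd2
      rw [← Function.iterate_succ'] at hd3
      rw [hd3.deriv, norm_mul, Finset.sum_range_succ, Real.exp_add, mul_comm]
      exact mul_le_mul ih (X.norm_deriv_le hρ hcl) (norm_nonneg _) (Real.exp_pos _).le
  refine (hprod N).trans (Real.exp_le_exp.2 ?_)
  refine (hN0 N hN x hx).trans ?_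
  gcongr
  linarith

end Siegel

end Pool.Agent.H.MP_e98f69_an
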