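import Pool.Agent.H.MP_e98f69_an.Potential

/-! The derivative of the rational map and its continuous majorants. -/

set_option autoImplicit false

open Set Filter Topology Metric MeasureTheory

namespace Pool.Agent.H.MP_e98f69_an

/-- numerator of the derivative -/
noncomputable def num (P Q : Polynomial ℂ) : Polynomial ℂ :=
  Polynomial.derivative P * Q - P * Polynomial.derivative Q

/-- continuous majorant of `log |f'|` -/
noncomputable def GG (P Q : Polynomial ℂ) (ρ : ℝ) (w : ℂ) : ℝ :=
  Real.log ‖(num P Q).leadingCoeff‖ + ((num P Q).roots.map fun a => ell a ρ w).sum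
    - 2 * Real.log ‖Q.eval w‖

lemma deriv_rat {P Q : Polynomial ℂ} {z : ℂ} (h : Q.eval z ≠ 0) :
    HasDerivAt (rat P Q) ((num P Q).eval z / (Q.eval z) ^ 2) z := by
  have := (P.hasDerivAt z).fun_div (Q.hasDerivAt z) h
  unfold rat num
  simpa using this

lemma multiset_sum_log (s : Multiset ℂ) {ρ : ℝ} (hρ : 0 < ρ) (w : ℂ) :
    Real.exp ((s.map fun a => ell a ρ w).sum) = (s.map fun a => max ‖w - a‖ ρ).prod := by
  induction s using Multiset.induction with
  | empty => simp
  | cons a s ih =>
    rw [Multiset.map_cons, Multiset.sum_cons, Multiset.map_cons, Multiset.prod_cons, Real.exp_add,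
      ih]
    unfold ell
    rw [Real.exp_log (lt_max_of_lt_right hρ)]

lemma multiset_prod_le (s : Multiset ℂ) (ρ : ℝ) (w : ℂ) :
    (s.map fun a => ‖w - a‖).prod ≤ (s.map fun a => max ‖w - a‖ ρ).prod := by
  induction s using Multiset.induction with
  | empty => simp
  | cons a s ih =>
    rw [Multiset.map_cons, Multiset.prod_cons, Multiset.map_cons, Multiset.prod_cons]
    apply mul_le_mul (le_max_left _ _) ih
    · apply Multiset.prod_nonneg
      intro x hx
      obtain ⟨b, -, rfl⟩ := Multiset.mem_map.1 hx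
      exact norm_nonneg _
    · exact (norm_nonneg _).trans (le_max_left _ _)

lemma norm_eval_eq (p : Polynomial ℂ) (w : ℂ) :
    ‖p.eval w‖ = ‖p.leadingCoeff‖ * (p.roots.map fun a => ‖w - a‖).prod := by
  have h := IsAlgClosed.splits p
  have h1 := h.eq_prod_roots
  conv_lhs => rw [h1]
  rw [Polynomial.eval_mul, Polynomial.eval_C, norm_mul, Polynomial.eval_multiset_prod]
  congr 1
  rw [Multiset.map_map]
  generalize p.roots = s
  induction s using Multiset.induction with
  | empty => simp
  | cons a s ih =>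
    rw [Multiset.map_cons, Multiset.prod_cons, Multiset.map_cons, Multiset.prod_cons, norm_mul, ih]
    simp

lemma multiset_circle {γ : ℂ → ℂ} {r : ℝ} (hγ : ContinuousOn γ (sphere 0 |r|)) {ρ : ℝ} (hρ : 0 < ρ)
    (s : Multiset ℂ) : ContinuousOn (fun ζ => (s.map fun a => ell a ρ (γ ζ)).sum) (sphere 0 |r|) := by
  induction s using Multiset.induction with
  | empty => simpa using continuousOn_const
  | cons a s ih =>
    simp only [Multiset.map_cons, Multiset.sum_cons]
    exact ((continuous_ell a hρ).comp_continuousOn hγ).add ih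

lemma continuous_GG_sum (s : Multiset ℂ) {ρ : ℝ} (hρ : 0 < ρ) :
    Continuous (fun w => (s.map fun a => ell a ρ w).sum) := by
  induction s using Multiset.induction with
  | empty => simpa using continuous_const
  | cons a s ih =>
    simp only [Multiset.map_cons, Multiset.sum_cons]
    exact (continuous_ell a hρ).add ih

namespace Siegel

variable {P Q : Polynomial ℂ} {S : Set ℂ} {θ : ℝ} {φ : ℂ → ℂ} (X : Siegel P Q S θ φ)

include X

theorem chain {z : ℂ} (hz : z ∈ S) :
    deriv φ (rat P Q z) * deriv (rat P Q) z = rot θ * deriv φ z := by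
  have hz' : z ∈ closure S := subset_closure hz
  have hf := (X.dyn z hz).1
  have h1 : HasDerivAt (rat P Q) (deriv (rat P Q) z) z := (X.rat_diffAt hz').hasDerivAt
  have h2 : HasDerivAt φ (deriv φ (rat P Q z)) (rat P Q z) :=
    (X.phi_an hf).differentiableAt.hasDerivAt
  have h3 := h2.comp z h1
  have h4 : HasDerivAt (fun w => rot θ * φ w) (rot θ * deriv φ z) z :=
    ((X.phi_an hz).differentiableAt.hasDerivAt).const_mul _
  have h5 : (φ ∘ rat P Q) =ᶠ[𝓝 z] (fun w => rot θ * φ w) := by
    filter_upwards [X.op.mem_nhds hz] with w hw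
    exact (X.dyn w hw).2
  exact (h3.congr_of_eventuallyEq h5.symm).unique h4

theorem deriv_rat_ne {z : ℂ} (hz : z ∈ S) : deriv (rat P Q) z ≠ 0 := by
  intro h
  have h1 := X.chain hz
  rw [h, mul_zero] at h1
  exact mul_ne_zero (rot_ne θ) (X.deriv_phi_ne hz) h1.symm

theorem rat_fix : rat P Q (X.psi 0) = X.psi 0 := by
  rw [X.rat_psi zero_mem, mul_zero]

theorem norm_deriv_fix : ‖deriv (rat P Q) (X.psi 0)‖ = 1 := by
  have hz := X.psi_mem zero_mem
  have h1 := X.chain hz
  rw [X.rat_fix, mul_comm (rot θ)] at h1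
  rw [mul_left_cancel₀ (X.deriv_phi_ne hz) h1, norm_rot]

theorem num_eval_ne {z : ℂ} (hz : z ∈ S) : (num P Q).eval z ≠ 0 := by
  intro h
  apply X.deriv_rat_ne hz
  rw [(deriv_rat (X.Q_ne (subset_closure hz))).deriv, h, zero_div]

theorem num_ne : num P Q ≠ 0 := by
  intro h
  apply X.num_eval_ne (X.psi_mem zero_mem)
  rw [h, Polynomial.eval_zero]

theorem norm_deriv_le {ρ : ℝ} (hρ : 0 < ρ) {w : ℂ} (hw : w ∈ closure S) :
    ‖deriv (rat P Q) w‖ ≤ Real.exp (GG P Q ρ w) := by
  have hQ := X.Q_ne hw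
  have hQ' : 0 < ‖Q.eval w‖ := norm_pos_iff.2 hQ
  have hlc : 0 < ‖(num P Q).leadingCoeff‖ := by
    rw [norm_pos_iff, Polynomial.leadingCoeff_ne_zero]
    exact X.num_ne
  rw [(deriv_rat hQ).deriv, norm_div, norm_pow, norm_eval_eq]
  unfold GG
  rw [Real.exp_sub, Real.exp_add, Real.exp_log hlc, multiset_sum_log _ hρ]
  have : Real.exp (2 * Real.log ‖Q.eval w‖) = ‖Q.eval w‖ ^ 2 := by
    rw [two_mul, Real.exp_add, Real.exp_log hQ', sq]
  rw [this]
  gcongr
  exact multiset_prod_le _ _ _

theorem GG_contOn {ρ : ℝ} (hρ : 0 < ρ) : ContinuousOn (GG P Q ρ) (closure S) := by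
  unfold GG
  apply ContinuousOn.sub
  · exact (continuous_const.add (continuous_GG_sum _ hρ)).continuousOn
  · apply ContinuousOn.mul continuousOn_const
    apply ContinuousOn.log
    · exact Q.continuous.norm.continuousOn
    · intro w hw
      exact norm_ne_zero_iff.2 (X.Q_ne hw)

theorem log_deriv_fix :
    Real.log ‖(num P Q).leadingCoeff‖ +
      ((num P Q).roots.map fun a => Real.log ‖X.psi 0 - a‖).sum
      - 2 * Real.log ‖Q.eval (X.psi 0)‖ = 0 := by
  have hz := X.psi_mem zero_mem
  have hQ := X.Q_ne (subset_closure hz)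
  have hQ' : 0 < ‖Q.eval (X.psi 0)‖ := norm_pos_iff.2 hQ
  have hlc : 0 < ‖(num P Q).leadingCoeff‖ := by
    rw [norm_pos_iff, Polynomial.leadingCoeff_ne_zero]
    exact X.num_ne
  have hroots : ∀ a ∈ (num P Q).roots, 0 < ‖X.psi 0 - a‖ := by
    intro a ha
    rw [norm_pos_iff, sub_ne_zero]
    rintro rfl
    exact X.num_eval_ne hz ((Polynomial.mem_roots X.num_ne).1 ha)
  have hprod : Real.log ((num P Q).roots.map fun a => ‖X.psi 0 - a‖).prod =
      ((num P Q).roots.map fun a => Real.log ‖X.psi 0 - a‖).sum := by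
    revert hroots
    generalize (num P Q).roots = s
    induction s using Multiset.induction with
    | empty => intro _; simp
    | cons a s ih =>
      intro h
      rw [Multiset.map_cons, Multiset.prod_cons, Multiset.map_cons, Multiset.sum_cons,
        Real.log_mul, ih (fun b hb => h b (Multiset.mem_cons_of_mem hb))]
      · exact (h a (Multiset.mem_cons_self _ _)).ne'
      · apply Multiset.prod_ne_zero
        intro h0
        obtain ⟨b, hb, hb2⟩ := Multiset.mem_map.1 h0
        exact (h b (Multiset.mem_cons_of_mem hb)).ne' hb2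
  have hpos : 0 < ((num P Q).roots.map fun a => ‖X.psi 0 - a‖).prod := by
    apply Multiset.prod_pos
    intro x hx
    obtain ⟨b, hb, rfl⟩ := Multiset.mem_map.1 hx
    exact hroots b hb
  have h1 := X.norm_deriv_fix
  rw [(deriv_rat hQ).deriv, norm_div, norm_pow, norm_eval_eq] at h1
  have h2 := congrArg Real.log h1
  rw [Real.log_one, Real.log_div (by positivity) (by positivity), Real.log_mul hlc.ne' hpos.ne',
    Real.log_pow, hprod] at h2
  push_cast at h2
  linarith

/-- the sum version of the potential inequality -/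
theorem sum_potential (s : Multiset ℂ) (hs : ∀ a ∈ s, a ∉ S) {ε : ℝ} (hε : 0 < ε) :
    ∃ ρ0 > 0, ∀ ρ, 0 < ρ → ρ < ρ0 → ∀ r, 0 < r → r < 1 →
      Real.circleAverage (fun ζ => (s.map fun a => ell a ρ (X.psi ζ)).sum) 0 r ≤
        (s.map fun a => Real.log ‖X.psi 0 - a‖).sum + (Multiset.card s) * ε := by
  induction s using Multiset.induction with
  | empty =>
    refine ⟨1, one_pos, fun ρ _ _ r _ _ => ?_⟩
    simp [Real.circleAverage]
  | cons a s ih =>
    obtain ⟨ρ1, hρ1, h1⟩ := ih (fun b hb => hs b (Multiset.mem_cons_of_mem hb))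
    obtain ⟨ρ2, hρ2, h2⟩ := X.exists_potential (hs a (Multiset.mem_cons_self _ _)) hε
    refine ⟨min ρ1 ρ2, lt_min hρ1 hρ2, fun ρ hρ hρ' r hr0 hr1 => ?_⟩
    have e1 := h1 ρ hρ (hρ'.trans_le (min_le_left _ _)) r hr0 hr1
    have e2 := h2 ρ hρ (hρ'.trans_le (min_le_right _ _)) r hr0 hr1
    simp only [Multiset.map_cons, Multiset.sum_cons, Multiset.card_cons]
    have hc : ContinuousOn X.psi (sphere 0 |r|) := by
      rw [abs_of_pos hr0]
      exact X.psi_diff.continuousOn.mono
        (sphere_subset_closedBall.trans (closedBall_subset_ball hr1))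
    have hi1 : CircleIntegrable (fun ζ => ell a ρ (X.psi ζ)) 0 r :=
      ((continuous_ell a hρ).comp_continuousOn hc).circleIntegrable'
    have hi2 : CircleIntegrable (fun ζ => (s.map fun a => ell a ρ (X.psi ζ)).sum) 0 r :=
      (multiset_circle hc hρ s).circleIntegrable'
    rw [Real.circleAverage_fun_add hi1 hi2]
    push_cast
    linarith

theorem avg_GG {ε : ℝ} (hε : 0 < ε) : ∃ ρ > 0, ∀ r, 0 < r → r < 1 →
    Real.circleAverage (fun ζ => GG P Q ρ (X.psi ζ)) 0 r ≤ ε := by
  have hroots : ∀ a ∈ (num P Q).roots, a ∉ S := by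
    intro a ha haS
    exact X.num_eval_ne haS ((Polynomial.mem_roots X.num_ne).1 ha)
  set m : ℝ := (Multiset.card (num P Q).roots : ℝ) with hm
  have hm0 : 0 ≤ m := by positivity
  obtain ⟨ρ0, hρ0, h⟩ := X.sum_potential (num P Q).roots hroots (ε := ε / (m + 1)) (by positivity)
  refine ⟨ρ0 / 2, by positivity, fun r hr0 hr1 => ?_⟩
  have hρ : 0 < ρ0 / 2 := by positivity
  have e1 := h (ρ0 / 2) hρ (by linarith) r hr0 hr1
  have hc : ContinuousOn X.psi (sphere 0 |r|) := by
    rw [abs_of_pos hr0]
    exact X.psi_diff.continuousOn.mono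
      (sphere_subset_closedBall.trans (closedBall_subset_ball hr1))
  have hi2 : CircleIntegrable (fun ζ => ((num P Q).roots.map fun a => ell a (ρ0 / 2) (X.psi ζ)).sum)
      0 r := (multiset_circle hc hρ _).circleIntegrable'
  have hQan : AnalyticOnNhd ℂ (fun ζ => Q.eval (X.psi ζ)) (closedBall 0 |r|) := by
    rw [abs_of_pos hr0]
    intro w hw
    have h1 : AnalyticAt ℂ (fun z => Q.eval z) (X.psi w) := by
      have : AnalyticOnNhd ℂ (fun z => Q.eval z) univ :=
        (Q.differentiable.differentiableOn).analyticOnNhd isOpen_univ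
      exact this _ (mem_univ _)
    exact h1.comp (X.psi_anOn hr1 w hw)
  have hQne : ∀ u ∈ closedBall (0 : ℂ) |r|, Q.eval (X.psi u) ≠ 0 := by
    rw [abs_of_pos hr0]
    intro u hu
    exact X.Q_ne (subset_closure (X.psi_mem (closedBall_subset_ball hr1 hu)))
  have e2 := hQan.circleAverage_log_norm_of_ne_zero hQne
  have hi3 : CircleIntegrable (fun ζ => Real.log ‖Q.eval (X.psi ζ)‖) 0 r :=
    (hQan.mono sphere_subset_closedBall).meromorphicOn.circleIntegrable_log_norm
  have e3 := X.log_deriv_fix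
  have e4 : Real.circleAverage (fun ζ => GG P Q (ρ0 / 2) (X.psi ζ)) 0 r =
      Real.log ‖(num P Q).leadingCoeff‖ +
      Real.circleAverage (fun ζ => ((num P Q).roots.map fun a => ell a (ρ0 / 2) (X.psi ζ)).sum) 0 r
      - 2 * Real.circleAverage (fun ζ => Real.log ‖Q.eval (X.psi ζ)‖) 0 r := by
    unfold GG
    rw [Real.circleAverage_fun_sub, Real.circleAverage_fun_add, Real.circleAverage_const]
    · congr 1
      have := Real.circleAverage_fun_smul (𝕜 := ℝ) (a := (2 : ℝ))
        (f := fun ζ => Real.log ‖Q.eval (X.psi ζ)‖) (c := 0) (R := r)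
      simpa using this
    · exact circleIntegrable_const _ _ _
    · exact hi2
    · exact (circleIntegrable_const _ _ _).add hi2
    · exact hi3.const_mul 2
  rw [e4, e2]
  have e5 : m * (ε / (m + 1)) ≤ ε := by
    rw [mul_div_assoc', div_le_iff₀ (by positivity)]
    nlinarith
  linarith

end Siegel

end Pool.Agent.H.MP_e98f69_an
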