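import Mathlib

/-! Subexponential growth of derivatives implies zero topological entropy. -/

set_option autoImplicit false

open Set Filter Topology Metric Uniformity
open scoped SetRel

namespace Pool.Agent.H.MP_e98f69_an

/-- uniform local Lipschitz bound on a compact set -/
lemma local_lip {F : Set ℂ} (hF : IsCompact F) {T : ℂ → ℂ} (hT : ∀ x ∈ F, AnalyticAt ℂ T x)
    {a b : ℝ} (ha : 0 ≤ a) (hab : a < b) (hd : ∀ x ∈ F, ‖deriv T x‖ ≤ a) :
    ∃ r > 0, ∀ x ∈ F, ∀ y, dist x y < r → dist (T x) (T y) ≤ b * dist x y := by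
  refine hF.induction_on (p := fun s => ∃ r > 0, ∀ x ∈ s, ∀ y, dist x y < r →
    dist (T x) (T y) ≤ b * dist x y) ?_ ?_ ?_ ?_
  · exact ⟨1, one_pos, fun x hx => hx.elim⟩
  · rintro s t hst ⟨r, hr, h⟩
    exact ⟨r, hr, fun x hx => h x (hst hx)⟩
  · rintro s t ⟨r, hr, h⟩ ⟨r', hr', h'⟩
    refine ⟨min r r', lt_min hr hr', ?_⟩
    rintro x (hx | hx) y hy
    · exact h x hx y (hy.trans_le (min_le_left _ _))
    · exact h' x hx y (hy.trans_le (min_le_right _ _))
  · intro x hx
    have hb : 0 < b := ha.trans_lt hab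
    have h1 : HasStrictDerivAt T (deriv T x) x := (hT x hx).hasStrictDerivAt
    have h2 : ∃ s ∈ 𝓝 x, LipschitzOnWith b.toNNReal T s := by
      apply h1.hasStrictFDerivAt.exists_lipschitzOnWith_of_nnnorm_lt
      rw [← NNReal.coe_lt_coe, coe_nnnorm, Real.coe_toNNReal _ hb.le]
      simpa using (hd x hx).trans_lt hab
    obtain ⟨s, hs, hs2⟩ := h2
    obtain ⟨r, hr, hr2⟩ := Metric.mem_nhds_iff.1 hs
    refine ⟨ball x (r / 2), mem_nhdsWithin_of_mem_nhds (ball_mem_nhds _ (by positivity)),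
      r / 2, by positivity, ?_⟩
    intro y hy z hz
    have hy' : y ∈ s := hr2 (ball_subset_ball (by linarith) hy)
    have hz' : z ∈ s := by
      apply hr2
      rw [mem_ball] at *
      calc dist z x ≤ dist z y + dist y x := dist_triangle _ _ _
        _ < r := by rw [dist_comm z y]; linarith
    have h3 := hs2.dist_le_mul y hy' z hz'
    rwa [Real.coe_toNNReal _ hb.le] at h3

/-- covering number of a bounded plane set -/
lemma exists_net {F : Set ℂ} {R : ℝ} (hR : 0 ≤ R) (hF : ∀ z ∈ F, ‖z‖ ≤ R) {η : ℝ} (hη : 0 < η)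
    (hη1 : η ≤ 1) : ∃ E : Finset ℂ, (E : Set ℂ) ⊆ F ∧ (∀ z ∈ F, ∃ w ∈ E, dist z w < η) ∧
      (E.card : ℝ) ≤ ((4 * R + 7) / η) ^ 2 := by
  classical
  set g : ℂ → ℤ × ℤ := fun z => (⌊z.re / (η / 2)⌋, ⌊z.im / (η / 2)⌋) with hg
  set M : ℤ := ⌈2 * R / η⌉ + 1 with hM
  have hM0 : (2 * R / η : ℝ) ≤ ⌈2 * R / η⌉ := Int.le_ceil _
  have hbound : ∀ t : ℝ, |t| ≤ R → ⌊t / (η / 2)⌋ ∈ Finset.Icc (-M) M := by
    intro t ht
    rw [abs_le] at ht
    have e : t / (η / 2) = 2 * t / η := by field_simp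
    rw [e, Finset.mem_Icc]
    have h1 : 2 * t / η ≤ 2 * R / η := by
      apply div_le_div_of_nonneg_right _ hη.le
      linarith
    have h2 : -(2 * R / η) ≤ 2 * t / η := by
      rw [← neg_div]
      apply div_le_div_of_nonneg_right _ hη.le
      linarith
    constructor
    · rw [Int.le_floor, hM]
      push_cast
      linarith
    · have h3 : (⌊2 * t / η⌋ : ℝ) ≤ 2 * t / η := Int.floor_le _
      have h4 : (⌊2 * t / η⌋ : ℝ) ≤ M := by
        rw [hM]; push_cast; linarith
      exact_mod_cast h4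
  set B : Finset (ℤ × ℤ) := Finset.Icc (-M) M ×ˢ Finset.Icc (-M) M with hB
  have hgB : ∀ z ∈ F, g z ∈ B := by
    intro z hz
    rw [hB, Finset.mem_product]
    exact ⟨hbound _ ((Complex.abs_re_le_norm z).trans (hF z hz)),
      hbound _ ((Complex.abs_im_le_norm z).trans (hF z hz))⟩
  set B' : Finset (ℤ × ℤ) := B.filter (fun p => ∃ z ∈ F, g z = p) with hB'
  have hch : ∀ p : B', ∃ z ∈ F, g z = (p : ℤ × ℤ) := fun p => (Finset.mem_filter.1 p.2).2
  choose c hc1 hc2 using hch
  refine ⟨Finset.univ.image c, ?_, ?_, ?_⟩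
  · intro z hz
    simp only [Finset.coe_image, Finset.coe_univ, image_univ, mem_range] at hz
    obtain ⟨p, rfl⟩ := hz
    exact hc1 p
  · intro z hz
    have hp : g z ∈ B' := Finset.mem_filter.2 ⟨hgB z hz, z, hz, rfl⟩
    refine ⟨c ⟨g z, hp⟩, Finset.mem_image_of_mem _ (Finset.mem_univ _), ?_⟩
    have h1 := hc2 ⟨g z, hp⟩
    simp only [hg, Prod.mk.injEq] at h1
    set w := c ⟨g z, hp⟩
    have key : ∀ s t : ℝ, ⌊s / (η / 2)⌋ = ⌊t / (η / 2)⌋ → |t - s| < η / 2 := by
      intro s t hst
      have a := Int.abs_sub_lt_one_of_floor_eq_floor hst.symm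
      rw [← sub_div, abs_div, abs_of_pos (half_pos hη), div_lt_one (half_pos hη)] at a
      exact a
    have h2 := key _ _ h1.1
    have h3 := key _ _ h1.2
    rw [dist_eq_norm]
    calc ‖z - w‖ ≤ |(z - w).re| + |(z - w).im| := Complex.norm_le_abs_re_add_abs_im _
      _ < η := by
        rw [Complex.sub_re, Complex.sub_im]
        linarith
  · have h1 : (Finset.univ.image c).card ≤ B.card := by
      refine Finset.card_image_le.trans ?_
      rw [Finset.card_univ, Fintype.card_coe]
      exact Finset.card_filter_le _ _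
    have h2 : (B.card : ℝ) = (2 * (M : ℝ) + 1) ^ 2 := by
      rw [hB, Finset.card_product, Int.card_Icc]
      have hMnn : 0 ≤ M := by
        rw [hM]
        have : (0 : ℤ) ≤ ⌈2 * R / η⌉ := Int.ceil_nonneg (by positivity)
        omega
      have h3 : (((M + 1 - -M).toNat : ℕ) : ℤ) = 2 * M + 1 := by
        rw [Int.toNat_of_nonneg (by omega)]; ring
      have h4 : (((M + 1 - -M).toNat : ℕ) : ℝ) = 2 * (M : ℝ) + 1 := by exact_mod_cast h3
      push_cast
      rw [h4]; ring
    have h5 : (M : ℝ) < 2 * R / η + 2 := by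
      rw [hM]; push_cast
      have := Int.ceil_lt_add_one (2 * R / η)
      linarith
    have h6 : 2 * (M : ℝ) + 1 ≤ (4 * R + 7) / η := by
      have h7 : (4 * R + 7) / η = 2 * (2 * R / η) + 7 / η := by ring
      have h8 : 7 ≤ 7 / η := by
        rw [le_div_iff₀ hη]; linarith
      rw [h7]; linarith
    have h9 : (0 : ℝ) ≤ 2 * (M : ℝ) + 1 := by
      have : (0 : ℝ) ≤ M := by
        rw [hM]; push_cast
        have : 0 ≤ 2 * R / η := by positivity
        linarith
      linarith
    calc ((Finset.univ.image c).card : ℝ) ≤ B.card := by exact_mod_cast h1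
      _ = (2 * (M : ℝ) + 1) ^ 2 := h2
      _ ≤ _ := pow_le_pow_left₀ h9 h6 2

/-- dynamical balls contain small Euclidean balls -/
lemma dyn_close {F : Set ℂ} {T : ℂ → ℂ} (hinv : MapsTo T F F) {m : ℕ} {L E r : ℝ}
    (hL : 1 ≤ L) (hE : 1 ≤ E)
    (h1 : ∀ x ∈ F, ∀ y, dist x y < r → dist (T x) (T y) ≤ L * dist x y)
    (hm : ∀ x ∈ F, ∀ y, dist x y < r → dist (T^[m] x) (T^[m] y) ≤ E * dist x y)
    {s : ℝ} (hs : 0 < s) (hsr : s < r) (j : ℕ) {x y : ℂ} (hx : x ∈ F)
    (hxy : dist x y ≤ s / (L ^ m * E ^ j)) :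
    ∀ i ≤ j, ∀ l ≤ m, dist (T^[m * i + l] x) (T^[m * i + l] y) ≤ s := by
  have hLpos : 0 < L := by linarith
  have hEpos : 0 < E := by linarith
  have hmem : ∀ n, T^[n] x ∈ F := fun n => hinv.iterate n hx
  have hblock : ∀ i ≤ j, dist (T^[m * i] x) (T^[m * i] y) ≤ E ^ i * dist x y := by
    intro i
    induction i with
    | zero => intro _; simp
    | succ i ih =>
      intro hi
      have h2 := ih (by omega)
      have h3 : E ^ i * dist x y < r := by
        calc E ^ i * dist x y ≤ E ^ j * (s / (L ^ m * E ^ j)) := by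
              gcongr
              omega
          _ = s / L ^ m := by field_simp
          _ ≤ s := div_le_self hs.le (one_le_pow₀ hL)
          _ < r := hsr
      have h4 := hm _ (hmem (m * i)) (T^[m * i] y) (h2.trans_lt h3)
      rw [← Function.iterate_add_apply, ← Function.iterate_add_apply] at h4
      have e : m * (i + 1) = m + m * i := by ring
      rw [e]
      calc _ ≤ E * dist (T^[m * i] x) (T^[m * i] y) := h4
        _ ≤ E * (E ^ i * dist x y) := by gcongr
        _ = E ^ (i + 1) * dist x y := by ring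
  intro i hi l
  have hbi : dist (T^[m * i] x) (T^[m * i] y) ≤ s / L ^ m := by
    calc _ ≤ E ^ i * dist x y := hblock i hi
      _ ≤ E ^ j * (s / (L ^ m * E ^ j)) := by gcongr
      _ = s / L ^ m := by field_simp
  have hl : ∀ l ≤ m, dist (T^[m * i + l] x) (T^[m * i + l] y) ≤ L ^ l * (s / L ^ m) := by
    intro l
    induction l with
    | zero => intro _; simpa using hbi
    | succ l ih =>
      intro hl
      have h2 := ih (by omega)
      have h3 : L ^ l * (s / L ^ m) ≤ s := by
        calc L ^ l * (s / L ^ m) ≤ L ^ m * (s / L ^ m) := by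
              gcongr
              omega
          _ = s := by field_simp
      have h4 := h1 _ (hmem (m * i + l)) (T^[m * i + l] y) ((h2.trans h3).trans_lt hsr)
      have e : m * i + (l + 1) = (m * i + l) + 1 := by ring
      rw [e, Function.iterate_succ_apply', Function.iterate_succ_apply']
      calc _ ≤ L * dist (T^[m * i + l] x) (T^[m * i + l] y) := h4
        _ ≤ L * (L ^ l * (s / L ^ m)) := by gcongr
        _ = L ^ (l + 1) * (s / L ^ m) := by ring
  intro hlm
  refine (hl l hlm).trans ?_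
  calc L ^ l * (s / L ^ m) ≤ L ^ m * (s / L ^ m) := by gcongr
    _ = s := by field_simp

theorem entropy_zero {F : Set ℂ} (hF : IsCompact F) (hne : F.Nonempty) {T : ℂ → ℂ}
    (hinv : MapsTo T F F) (hT : ∀ n, ∀ x ∈ F, AnalyticAt ℂ (T^[n]) x)
    (hgr : ∀ ε > 0, ∃ m ≥ 1, ∀ x ∈ F, ‖deriv (T^[m]) x‖ ≤ Real.exp (m * ε)) :
    Dynamics.coverEntropy T F = 0 := by
  refine le_antisymm ?_ (Dynamics.coverEntropy_nonneg T hne)
  by_contra hcon
  rw [not_le] at hcon
  obtain ⟨r, hr0, hr1⟩ := EReal.lt_iff_exists_real_btwn.1 hcon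
  have hr : 0 < r := by exact_mod_cast hr0
  refine absurd hr1 (not_lt.2 ?_)
  rw [Dynamics.coverEntropy_eq_iSup_basis Metric.uniformity_basis_dist]
  refine iSup₂_le fun s0 hs0 => ?_
  -- constants
  set ε : ℝ := r / 16 with hε
  have hεpos : 0 < ε := by positivity
  obtain ⟨m, hm, hder⟩ := hgr ε hεpos
  have hmpos : (0 : ℝ) < m := by exact_mod_cast hm
  have hab : Real.exp (m * ε) < Real.exp (2 * m * ε) := by
    apply Real.exp_lt_exp.2
    nlinarith [mul_pos hmpos hεpos]
  obtain ⟨r1, hr1pos, hlip1⟩ := local_lip hF (hT m) (Real.exp_pos _).le hab hder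
  obtain ⟨a0, ha0⟩ := hF.exists_bound_of_continuousOn (f := deriv T) (fun x hx => by
    have := (hT 1 x hx).deriv.continuousAt
    simpa using this.continuousWithinAt)
  have hT1 : ∀ x ∈ F, AnalyticAt ℂ T x := fun x hx => by simpa using hT 1 x hx
  obtain ⟨r2, hr2pos, hlip2⟩ := local_lip hF hT1 (le_max_right a0 0)
    (lt_add_one (max a0 0)) (fun x hx => (ha0 x hx).trans (le_max_left _ _))
  set L : ℝ := max a0 0 + 1 with hL
  have hL1 : 1 ≤ L := by rw [hL]; linarith [le_max_right a0 0]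
  set E : ℝ := Real.exp (2 * m * ε) with hE
  have hE1 : 1 ≤ E := Real.one_le_exp (by positivity)
  set s : ℝ := min (min (s0 / 4) (min r1 r2 / 2)) 1 with hs
  have hspos : 0 < s := by
    rw [hs]
    refine lt_min (lt_min (by positivity) ?_) one_pos
    have := lt_min hr1pos hr2pos
    positivity
  have hs1 : s ≤ 1 := min_le_right _ _
  have hss0 : s < s0 / 2 := by
    have : s ≤ s0 / 4 := (min_le_left _ _).trans (min_le_left _ _)
    linarith
  have hsr : s < min r1 r2 := by
    have h1 : s ≤ min r1 r2 / 2 := (min_le_left _ _).trans (min_le_right _ _)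
    have := lt_min hr1pos hr2pos
    linarith
  obtain ⟨R, hR⟩ := hF.isBounded.exists_norm_le
  have hR' : ∀ z ∈ F, ‖z‖ ≤ max R 0 := fun z hz => (hR z hz).trans (le_max_left _ _)
  -- the constant `A` and the choice of `j`
  set A : ℝ := Real.log (4 * max R 0 + 7) - Real.log s + m * Real.log L with hA
  obtain ⟨j, hj⟩ := exists_nat_gt (2 * A / (4 * ε * m))
  rw [div_lt_iff₀ (by positivity)] at hj
  have hLm : 0 < L ^ m := by positivity
  have hEj : 0 < E ^ j := by positivity
  set η : ℝ := s / (L ^ m * E ^ j) with hη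
  have hηpos : 0 < η := by positivity
  have hη1 : η ≤ 1 := by
    have h1 : 1 ≤ L ^ m * E ^ j := one_le_mul_of_one_le_of_one_le (one_le_pow₀ hL1) (one_le_pow₀ hE1)
    exact (div_le_self hspos.le h1).trans hs1
  obtain ⟨N, hN1, hN2, hN3⟩ := exists_net (le_max_right R 0) hR' hηpos hη1
  -- the dynamical cover
  set V : SetRel ℂ ℂ := {p : ℂ × ℂ | dist p.1 p.2 < s0 / 2} with hV
  have hsymm : V.IsSymm := ⟨fun x y h => by
    show dist y x < s0 / 2
    rw [dist_comm]
    exact h⟩
  have hcov : Dynamics.IsDynCoverOf T F V (m * (j + 1)) N := by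
    intro x hx
    obtain ⟨w, hw, hxw⟩ := hN2 x hx
    refine ⟨w, hw, ?_⟩
    show (x, w) ∈ Dynamics.dynEntourage T V (m * (j + 1))
    rw [Dynamics.mem_dynEntourage]
    intro k hk
    have hclose := dyn_close hinv hL1 hE1
      (fun x hx y hxy => hlip2 x hx y (hxy.trans_le (min_le_right r1 r2)))
      (fun x hx y hxy => hlip1 x hx y (hxy.trans_le (min_le_left r1 r2)))
      hspos hsr j hx hxw.le (k / m) (by
        have := Nat.div_lt_of_lt_mul hk
        omega) (k % m) (Nat.mod_lt k (by omega)).le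
    rw [Nat.div_add_mod] at hclose
    exact hclose.trans_lt hss0
  have hn0 : m * (j + 1) ≠ 0 := by positivity
  have h1 := hcov.coverEntropyEntourage_le_log_card_div hinv hn0
  have hVV : V.comp V ⊆ {p : ℂ × ℂ | dist p.1 p.2 < s0} := by
    rintro ⟨a, b⟩ ⟨c, h2, h3⟩
    have h2' : dist a c < s0 / 2 := h2
    have h3' : dist c b < s0 / 2 := h3
    show dist a b < s0
    calc dist a b ≤ dist a c + dist c b := dist_triangle _ _ _
      _ < s0 := by linarith
  refine (Dynamics.coverEntropyEntourage_antitone T F hVV).trans (h1.trans ?_)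
  -- the estimate of the logarithm
  have hNne : N.Nonempty := by
    obtain ⟨x, hx⟩ := hne
    obtain ⟨w, hw, -⟩ := hN2 x hx
    exact ⟨w, hw⟩
  have hcard : (0 : ℝ) < N.card := by exact_mod_cast hNne.card_pos
  have hlog : ENNReal.log (N.card : ENNReal) = ((Real.log N.card : ℝ) : EReal) := by
    have : 0 < ((N.card : ENNReal)).toReal := by simpa using hNne.card_pos
    rw [ENNReal.log_pos_real' this]
    simp
  rw [hlog]
  have h2 : Real.log N.card ≤ 2 * (A + 2 * m * ε * j) := by
    have h3 : Real.log N.card ≤ Real.log (((4 * max R 0 + 7) / η) ^ 2) := Real.log_le_log hcard hN3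
    have h7 : (0 : ℝ) < 4 * max R 0 + 7 := by
      have := le_max_right R 0
      linarith
    rw [Real.log_pow, Real.log_div h7.ne' hηpos.ne', hη, Real.log_div hspos.ne' (by positivity),
      Real.log_mul hLm.ne' hEj.ne', Real.log_pow, Real.log_pow, hE, Real.log_exp] at h3
    push_cast at h3
    rw [hA]
    linarith
  have h3 : Real.log N.card / (m * (j + 1)) ≤ r := by
    rw [div_le_iff₀ (by positivity)]
    have h4 : 2 * A ≤ 4 * ε * m * (j + 1) := by
      have : (0 : ℝ) ≤ 4 * ε * m := by positivity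
      nlinarith
    have h5 : 4 * m * ε * j ≤ 4 * ε * m * (j + 1) := by
      have : (0 : ℝ) ≤ 4 * ε * m := by positivity
      nlinarith
    have h6 : r * (m * (j + 1)) = 16 * ε * m * (j + 1) := by rw [hε]; ring
    rw [h6]
    have h8 : 0 ≤ ε * m * (j + 1) := by positivity
    nlinarith
  have h4 : (((Real.log N.card : ℝ) : EReal) / ((m * (j + 1) : ℕ) : EReal)) =
      ((Real.log N.card / (m * (j + 1)) : ℝ) : EReal) := by
    rw [EReal.coe_div]
    congr 1
    have h5 : ((m : ℝ) * ((j : ℝ) + 1)) = ((m * (j + 1) : ℕ) : ℝ) := by push_cast; ring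
    rw [h5, EReal.coe_natCast]
  rw [h4]
  exact_mod_cast h3

end Pool.Agent.H.MP_e98f69_an
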