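import Pool.Agent.H.MP_e98f69_an.Rot

/-! Expanding invariant sets in the boundary force large impressions. -/

set_option autoImplicit false

open Set Filter Topology Metric
open scoped NNReal

namespace Pool.Agent.H.MP_e98f69_an

/-- `F` has at `x` an inverse branch on the disc of radius `δ`, contracting with factor `κ` -/
def HasBranch (F : ℂ → ℂ) (δ κ : ℝ) (x : ℂ) : Prop :=
  ∃ G : ℂ → ℂ, DifferentiableOn ℂ G (ball (F x) δ) ∧
    (∀ s, 0 < s → s ≤ δ → MapsTo G (ball (F x) s) (ball x (κ * s))) ∧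
    ∀ᶠ z in 𝓝 x, G (F z) = z

lemma HasBranch.mono {F : ℂ → ℂ} {δ κ δ' κ' : ℝ} {x : ℂ} (h : HasBranch F δ κ x) (hδ : δ' ≤ δ)
    (hκ : κ ≤ κ') : HasBranch F δ' κ' x := by
  obtain ⟨G, h1, h2, h3⟩ := h
  refine ⟨G, h1.mono (ball_subset_ball hδ), fun s hs hs2 w hw => ?_, h3⟩
  exact ball_subset_ball (mul_le_mul_of_nonneg_right hκ hs.le) (h2 s hs (hs2.trans hδ) hw)

lemma local_branch {F : ℂ → ℂ} {x : ℂ} (hF : AnalyticAt ℂ F x) (hd : 1 < ‖deriv F x‖) :
    ∃ δ > 0, ∃ κ : ℝ, 0 < κ ∧ κ < 1 ∧ ∀ᶠ y in 𝓝 x, HasBranch F δ κ y := by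
  have hs : HasStrictDerivAt F (deriv F x) x := hF.hasStrictDerivAt
  have hne : deriv F x ≠ 0 := by
    intro h; rw [h, norm_zero] at hd; linarith
  set G := hs.localInverse F (deriv F x) x hne with hG
  have hG1 : HasStrictDerivAt G (deriv F x)⁻¹ (F x) := hs.to_localInverse hne
  have hleft : ∀ᶠ z in 𝓝 x, G (F z) = z := hs.eventually_left_inverse hne
  have hright : ∀ᶠ w in 𝓝 (F x), F (G w) = w := hs.eventually_right_inverse hne
  have hGx : G (F x) = x := hleft.self_of_nhds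
  -- Lipschitz constant
  have hinv : ‖(deriv F x)⁻¹‖ < 1 := by
    rw [norm_inv]; exact inv_lt_one_of_one_lt₀ hd
  set κ : ℝ := (1 + ‖(deriv F x)⁻¹‖) / 2 with hκ
  have hκ0 : 0 < κ := by positivity
  have hκ1 : κ < 1 := by rw [hκ]; linarith
  have hlt : ‖(deriv F x)⁻¹‖ < κ := by rw [hκ]; linarith
  have hlip : ∃ s ∈ 𝓝 (F x), LipschitzOnWith κ.toNNReal G s := by
    apply hG1.hasStrictFDerivAt.exists_lipschitzOnWith_of_nnnorm_lt
    rw [← NNReal.coe_lt_coe, coe_nnnorm, Real.coe_toNNReal _ hκ0.le]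
    simpa using hlt
  obtain ⟨s, hs1, hs2⟩ := hlip
  -- `G` is differentiable near `F x`
  have hdiff : ∀ᶠ w in 𝓝 (F x), DifferentiableAt ℂ G w := by
    have hGc : ContinuousAt G (F x) := hG1.hasDerivAt.continuousAt
    have e1 : ∀ᶠ z in 𝓝 x, AnalyticAt ℂ F z := hF.eventually_analyticAt
    have e2 : ∀ᶠ z in 𝓝 x, deriv F z ≠ 0 := hF.deriv.continuousAt.eventually_ne hne
    have e3 : ∀ᶠ w in 𝓝 (F x), AnalyticAt ℂ F (G w) ∧ deriv F (G w) ≠ 0 := by
      have : Tendsto G (𝓝 (F x)) (𝓝 x) := by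
        have := hGc.tendsto; rwa [hGx] at this
      exact this.eventually (e1.and e2)
    have e4 : ∀ᶠ w in 𝓝 (F x), ContinuousAt G w := by
      filter_upwards [eventually_mem_nhds_iff.2 hs1] with w hw
      exact hs2.continuousOn.continuousAt hw
    filter_upwards [e3, e4, hright.eventually_nhds] with w hw1 hw2 hw3
    exact (HasDerivAt.of_local_left_inverse hw2 hw1.1.differentiableAt.hasDerivAt hw1.2
      hw3).differentiableAt
  obtain ⟨r, hr, hr2⟩ := Metric.eventually_nhds_iff_ball.1 (hdiff.and hs1)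
  refine ⟨r / 2, by positivity, κ, hκ0, hκ1, ?_⟩
  have hFc : ContinuousAt F x := hF.continuousAt
  have e5 : ∀ᶠ y in 𝓝 x, F y ∈ ball (F x) (r / 2) := hFc.eventually (ball_mem_nhds _ (by positivity))
  filter_upwards [e5, hleft.eventually_nhds] with y hy1 hy2
  have hsub : ball (F y) (r / 2) ⊆ ball (F x) r := by
    intro w hw
    rw [mem_ball] at *
    calc dist w (F x) ≤ dist w (F y) + dist (F y) (F x) := dist_triangle _ _ _
      _ < r := by linarith
  refine ⟨G, fun w hw => (hr2 w (hsub hw)).1.differentiableWithinAt, ?_, hy2⟩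
  intro t ht ht2 w hw
  have hGy : G (F y) = y := hy2.self_of_nhds
  have hw' : w ∈ s := (hr2 w (hsub (ball_subset_ball ht2 hw))).2
  have hy' : F y ∈ s := (hr2 (F y) (hsub (mem_ball_self (by positivity)))).2
  have h1 := hs2.dist_le_mul w hw' (F y) hy'
  rw [hGy, Real.coe_toNNReal _ hκ0.le] at h1
  rw [mem_ball] at *
  calc dist (G w) y ≤ κ * dist w (F y) := h1
    _ < κ * t := by gcongr

lemma uniform_branch {F : ℂ → ℂ} {K : Set ℂ} (hK : IsCompact K)
    (hF : ∀ x ∈ K, AnalyticAt ℂ F x) (hd : ∀ x ∈ K, 1 < ‖deriv F x‖) :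
    ∃ δ > 0, ∃ κ : ℝ, 0 < κ ∧ κ < 1 ∧ ∀ x ∈ K, HasBranch F δ κ x := by
  refine hK.induction_on (p := fun s => ∃ δ > 0, ∃ κ : ℝ, 0 < κ ∧ κ < 1 ∧ ∀ x ∈ s, HasBranch F δ κ x)
    ?_ ?_ ?_ ?_
  · exact ⟨1, one_pos, 1 / 2, by norm_num, by norm_num, fun x hx => hx.elim⟩
  · rintro s t hst ⟨δ, hδ, κ, h0, h1, h⟩
    exact ⟨δ, hδ, κ, h0, h1, fun x hx => h x (hst hx)⟩
  · rintro s t ⟨δ, hδ, κ, h0, h1, h⟩ ⟨δ', hδ', κ', h0', h1', h'⟩
    refine ⟨min δ δ', lt_min hδ hδ', max κ κ', lt_max_of_lt_left h0, max_lt h1 h1', ?_⟩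
    rintro x (hx | hx)
    · exact (h x hx).mono (min_le_left _ _) (le_max_left _ _)
    · exact (h' x hx).mono (min_le_right _ _) (le_max_right _ _)
  · intro x hx
    obtain ⟨δ, hδ, κ, h0, h1, h⟩ := local_branch (hF x hx) (hd x hx)
    exact ⟨_, mem_nhdsWithin_of_mem_nhds h, δ, hδ, κ, h0, h1, fun y hy => hy⟩

lemma iter_branch {F : ℂ → ℂ} {K : Set ℂ} (hF : ∀ x ∈ K, ContinuousAt F x)
    (hinv : ∀ x ∈ K, F x ∈ K) {δ κ : ℝ} (hδ : 0 < δ) (h0 : 0 < κ) (h1 : κ < 1)
    (h : ∀ x ∈ K, HasBranch F δ κ x) (n : ℕ) : ∀ x ∈ K, ∃ G : ℂ → ℂ,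
      DifferentiableOn ℂ G (ball (F^[n] x) δ) ∧
      MapsTo G (ball (F^[n] x) δ) (ball x (κ ^ n * δ)) ∧
      ∀ᶠ z in 𝓝 x, G (F^[n] z) = z := by
  induction n with
  | zero =>
    intro x _
    refine ⟨id, differentiableOn_id, ?_, Eventually.of_forall fun z => rfl⟩
    intro w hw
    simpa using hw
  | succ n ih =>
    intro x hx
    obtain ⟨G', hG1, hG2, hG3⟩ := ih (F x) (hinv x hx)
    obtain ⟨G, hg1, hg2, hg3⟩ := h x hx
    have hle : κ ^ n * δ ≤ δ := mul_le_of_le_one_left hδ.le (pow_le_one₀ h0.le h1.le)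
    have hpos : 0 < κ ^ n * δ := by positivity
    refine ⟨G ∘ G', ?_, ?_, ?_⟩
    · rw [Function.iterate_succ_apply]
      exact hg1.comp hG1 (fun w hw => ball_subset_ball hle (hG2 hw))
    · rw [Function.iterate_succ_apply]
      intro w hw
      have := hg2 _ hpos hle (hG2 hw)
      rw [pow_succ', mul_assoc]
      exact this
    · have e1 : ∀ᶠ z in 𝓝 x, G' (F^[n] (F z)) = F z := (hF x hx).eventually hG3
      filter_upwards [e1, hg3] with z hz1 hz2
      rw [Function.iterate_succ_apply]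
      show G (G' (F^[n] (F z))) = z
      rw [hz1, hz2]

namespace Siegel

variable {P Q : Polynomial ℂ} {S : Set ℂ} {θ : ℝ} {φ : ℂ → ℂ} (X : Siegel P Q S θ φ)

include X

/-- A compact forward invariant expanding subset of the boundary forces all impressions to be
uniformly large. -/
theorem large_impressions {K : Set ℂ} (hK : IsCompact K) (hne : K.Nonempty) (hsub : K ⊆ frontier S)
    (hinv : ∀ x ∈ K, rat P Q x ∈ K) {p : ℕ} (hd : ∀ x ∈ K, 1 < ‖deriv (rat P Q)^[p] x‖) :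
    ∃ δ > 0, ∀ ζ : ℂ, ‖ζ‖ = 1 → ∀ ε > 0, ∃ z ∈ S, ∃ z' ∈ S,
      ‖φ z - ζ‖ < ε ∧ ‖φ z' - ζ‖ < ε ∧ δ ≤ ‖z - z'‖ := by
  set F : ℂ → ℂ := (rat P Q)^[p] with hFdef
  have hcl : ∀ x ∈ K, x ∈ closure S := fun x hx => frontier_subset_closure (hsub hx)
  have hFan : ∀ x ∈ K, AnalyticAt ℂ F x := fun x hx => X.iter_an p (hcl x hx)
  have hFinv : ∀ x ∈ K, F x ∈ K := by
    intro x hx
    have : ∀ n, (rat P Q)^[n] x ∈ K := by
      intro n
      induction n with
      | zero => simpa using hx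
      | succ n ih => rw [Function.iterate_succ_apply']; exact hinv _ ih
    exact this p
  obtain ⟨δ, hδ, κ, h0, h1, hbr⟩ := uniform_branch hK hFan hd
  have hp : 1 ≤ p := by
    by_contra hp
    have : p = 0 := by omega
    obtain ⟨x, hx⟩ := hne
    have := hd x hx
    rw [hFdef, ‹p = 0›, Function.iterate_zero, deriv_id, norm_one] at this
    exact lt_irrefl _ this
  refine ⟨δ / 2, by positivity, ?_⟩
  intro ζ' hζ' ε hε
  by_contra hcon
  push Not at hcon
  obtain ⟨x, hx⟩ := hne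
  obtain ⟨ζ, hζ, hrel⟩ := X.exists_rel_frontier (hsub hx)
  -- the convex domain `D`
  set D : Set ℂ := ball 0 1 ∩ ball ζ (ε / 2) with hD
  have hDo : IsOpen D := isOpen_ball.inter isOpen_ball
  have hDc : IsPreconnected D := ((convex_ball _ _).inter (convex_ball _ _)).isPreconnected
  -- the angle condition
  have hirr : Irrational ((p : ℝ) * θ) := X.irr.natCast_mul (by omega)
  have hrotp : ∀ n : ℕ, rot ((p : ℝ) * θ) ^ n = rot θ ^ (p * n) := by
    intro n
    rw [pow_mul]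
    congr 1
    unfold rot
    rw [← Complex.exp_nat_mul]
    congr 1
    push_cast; ring
  have hiter : ∀ n : ℕ, F^[n] = (rat P Q)^[p * n] := fun n => (Function.iterate_mul _ p n).symm
  have key : ∀ N : ℕ, ∃ n ≥ N, ∀ w ∈ D, X.psi w ∈ ball x (κ ^ n * δ) := by
    intro N
    obtain ⟨n, hn, hclose⟩ := dense_orbit hirr hζ hζ' (half_pos hε) N
    refine ⟨n, hn, ?_⟩
    rw [hrotp] at hclose
    obtain ⟨G, hG1, hG2, hG3⟩ := iter_branch (fun x hx => (hFan x hx).continuousAt) hFinv hδ h0 h1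
      hbr n x hx
    have hreln := X.rel_iter (p * n) hrel
    rw [← hiter] at hreln
    have hrotD : ∀ w ∈ D, rot θ ^ (p * n) * w ∈ ball (0 : ℂ) 1 ∧
        ‖rot θ ^ (p * n) * w - ζ'‖ < ε := by
      intro w hw
      refine ⟨(X.rat_psi_iter (p * n) hw.1).2, ?_⟩
      have e : rot θ ^ (p * n) * w - ζ' = rot θ ^ (p * n) * (w - ζ) +
          (rot θ ^ (p * n) * ζ - ζ') := by ring
      rw [e]
      refine (norm_add_le _ _).trans_lt ?_
      rw [norm_rot_pow_mul]
      have := mem_ball_iff_norm.1 hw.2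
      linarith
    have hpsiD : ∀ w ∈ D, X.psi (rot θ ^ (p * n) * w) ∈ ball (F^[n] x) δ := by
      intro w hw
      obtain ⟨hw1, hw2⟩ := hrotD w hw
      obtain ⟨z', hz', hz1, hz2⟩ := hreln (min (δ / 2) (ε / 2)) (by positivity)
      have h3 : ‖φ z' - ζ'‖ < ε := by
        have e : φ z' - ζ' = (φ z' - rot θ ^ (p * n) * ζ) + (rot θ ^ (p * n) * ζ - ζ') := by ring
        rw [e]
        refine (norm_add_le _ _).trans_lt ?_
        have := hz1.trans_le (min_le_right _ _)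
        linarith
      have h4 := hcon (X.psi (rot θ ^ (p * n) * w)) (X.psi_mem hw1) z' hz'
        (by rw [X.phi_psi hw1]; exact hw2) h3
      rw [mem_ball_iff_norm]
      have e : X.psi (rot θ ^ (p * n) * w) - F^[n] x = (X.psi (rot θ ^ (p * n) * w) - z') +
          (z' - F^[n] x) := by ring
      rw [e]
      refine (norm_add_le _ _).trans_lt ?_
      have := hz2.trans_le (min_le_left _ _)
      linarith
    -- the function `h`
    have hdiff1 : DifferentiableOn ℂ (fun w => G (X.psi (rot θ ^ (p * n) * w))) D := by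
      refine hG1.comp ?_ hpsiD
      refine X.psi_diff.comp ?_ (fun w hw => (hrotD w hw).1)
      exact (differentiable_id.const_mul _).differentiableOn
    have hdiff2 : DifferentiableOn ℂ X.psi D := X.psi_diff.mono inter_subset_left
    -- a point where they agree
    obtain ⟨U, hU1, hU2, hU3⟩ := _root_.eventually_nhds_iff.1 hG3
    obtain ⟨r, hr, hr2⟩ := Metric.isOpen_iff.1 hU2 x hU3
    obtain ⟨z1, hz1, hz2, hz3⟩ := hrel (min r (ε / 2)) (by positivity)
    have hw1 : φ z1 ∈ D := ⟨X.phi_mem hz1, mem_ball_iff_norm.2 (hz2.trans_le (min_le_right _ _))⟩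
    have hz1U : z1 ∈ U := hr2 (mem_ball_iff_norm.2 (hz3.trans_le (min_le_left _ _)))
    have hev : X.psi =ᶠ[𝓝 (φ z1)] (fun w => G (X.psi (rot θ ^ (p * n) * w))) := by
      have e1 : ∀ᶠ w in 𝓝 (φ z1), X.psi w ∈ U := by
        apply (X.psi_cont (X.phi_mem hz1)).eventually
        rw [X.psi_phi hz1]
        exact hU2.mem_nhds hz1U
      filter_upwards [e1, isOpen_ball.mem_nhds (X.phi_mem hz1)] with w hw1 hw2
      have h5 := hU1 _ hw1
      rw [hiter, (X.rat_psi_iter (p * n) hw2).1] at h5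
      exact h5.symm
    have heq := (hdiff2.analyticOnNhd hDo).eqOn_of_preconnected_of_eventuallyEq
      (hdiff1.analyticOnNhd hDo) hDc hw1 hev
    intro w hw
    rw [heq hw]
    exact hG2 (hpsiD w hw)
  -- conclusion
  obtain ⟨z1, hz1, hz2, -⟩ := hrel (ε / 2) (by positivity)
  have hw1 : φ z1 ∈ D := ⟨X.phi_mem hz1, mem_ball_iff_norm.2 hz2⟩
  have hzero : dist z1 x ≤ 0 := by
    apply le_of_forall_pos_lt_add
    intro η hη
    rw [zero_add]
    obtain ⟨N, hN⟩ := exists_pow_lt_of_lt_one (div_pos hη hδ) h1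
    obtain ⟨n, hn, hn2⟩ := key N
    have h5 := hn2 _ hw1
    rw [X.psi_phi hz1, mem_ball] at h5
    refine h5.trans_le ?_
    calc κ ^ n * δ ≤ κ ^ N * δ := by
          gcongr ?_ * δ
          exact pow_le_pow_of_le_one h0.le h1.le hn
      _ ≤ η := by
          rw [lt_div_iff₀ hδ] at hN
          exact hN.le
  have h6 : z1 = x := dist_le_zero.1 hzero
  have h7 := hsub hx
  rw [frontier, X.op.interior_eq] at h7
  exact h7.2 (h6 ▸ hz1)

end Siegel

end Pool.Agent.H.MP_e98f69_an
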