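import Pool.Agent.H.MP_e98f69_an.Bdry

/-! Positive measure of degenerate impressions implies full measure; periodic points. -/

set_option autoImplicit false

open Set Filter Topology Metric MeasureTheory

namespace Pool.Agent.H.MP_e98f69_an

lemma haar_eq : (AddCircle.haarAddCircle : Measure UnitAddCircle) = volume := by
  have := AddCircle.volume_eq_smul_haarAddCircle (T := 1)
  rw [this, ENNReal.ofReal_one, one_smul]

lemma isOpen_level (S : Set ℂ) (φ : ℂ → ℂ) (ε : ℝ) :
    IsOpen {t : UnitAddCircle | ∃ δ > 0, ∀ z ∈ S, ∀ z' ∈ S, ‖φ z - toC t‖ < δ →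
      ‖φ z' - toC t‖ < δ → ‖z - z'‖ < ε} := by
  rw [isOpen_iff_mem_nhds]
  rintro t ⟨δ, hδ, h⟩
  have h1 : ∀ᶠ s in 𝓝 t, toC s ∈ ball (toC t) (δ / 2) :=
    continuous_toC.continuousAt.eventually (ball_mem_nhds _ (by positivity))
  filter_upwards [h1] with s hs
  refine ⟨δ / 2, by positivity, fun z hz z' hz' h2 h3 => ?_⟩
  rw [mem_ball_iff_norm] at hs
  apply h z hz z' hz'
  · have e : φ z - toC t = (φ z - toC s) + (toC s - toC t) := by ring
    rw [e]
    refine (norm_add_le _ _).trans_lt ?_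
    linarith
  · have e : φ z' - toC t = (φ z' - toC s) + (toC s - toC t) := by ring
    rw [e]
    refine (norm_add_le _ _).trans_lt ?_
    linarith

lemma measurable_deg (S : Set ℂ) (φ : ℂ → ℂ) :
    MeasurableSet {t : UnitAddCircle | Deg S φ (toC t)} := by
  have h1 : {t : UnitAddCircle | Deg S φ (toC t)} = ⋂ n : ℕ, {t : UnitAddCircle | ∃ δ > 0,
      ∀ z ∈ S, ∀ z' ∈ S, ‖φ z - toC t‖ < δ → ‖φ z' - toC t‖ < δ → ‖z - z'‖ < 1 / ((n : ℝ) + 1)} := by
    ext t
    simp only [mem_ofPred_eq, mem_iInter]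
    constructor
    · intro h n
      exact h _ (by positivity)
    · intro h ε hε
      obtain ⟨n, hn⟩ := exists_nat_one_div_lt hε
      obtain ⟨δ, hδ, h2⟩ := h n
      exact ⟨δ, hδ, fun z hz z' hz' h3 h4 => (h2 z hz z' hz' h3 h4).trans hn⟩
  rw [h1]
  exact MeasurableSet.iInter fun n => (isOpen_level S φ _).measurableSet

namespace Siegel

variable {P Q : Polynomial ℂ} {S : Set ℂ} {θ : ℝ} {φ : ℂ → ℂ} (X : Siegel P Q S θ φ)

include X

theorem deg_rot {ζ : ℂ} (h : Deg S φ ζ) : Deg S φ (rot θ * ζ) := by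
  intro ε hε
  have huc : UniformContinuousOn (rat P Q) (closure S) :=
    X.bdd.isCompact_closure.uniformContinuousOn_of_continuous
      (fun w hw => (X.rat_cont hw).continuousWithinAt)
  obtain ⟨δ1, hδ1, h1⟩ := Metric.uniformContinuousOn_iff.1 huc ε hε
  obtain ⟨δ, hδ, h2⟩ := h δ1 hδ1
  refine ⟨δ, hδ, ?_⟩
  -- preimages
  have hpre : ∀ z ∈ S, ‖φ z - rot θ * ζ‖ < δ → ∃ w ∈ S, rat P Q w = z ∧ ‖φ w - ζ‖ < δ := by
    intro z hz hz2
    have hne := rot_ne θ
    have hmem : (rot θ)⁻¹ * φ z ∈ ball (0 : ℂ) 1 := by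
      rw [mem_ball_zero_iff, norm_mul, norm_inv, norm_rot, inv_one, one_mul]
      exact mem_ball_zero_iff.1 (X.phi_mem hz)
    refine ⟨X.psi ((rot θ)⁻¹ * φ z), X.psi_mem hmem, ?_, ?_⟩
    · rw [X.rat_psi hmem, mul_inv_cancel_left₀ hne, X.psi_phi hz]
    · rw [X.phi_psi hmem]
      have e : (rot θ)⁻¹ * φ z - ζ = (rot θ)⁻¹ * (φ z - rot θ * ζ) := by
        rw [mul_sub, inv_mul_cancel_left₀ hne]
      rw [e, norm_mul, norm_inv, norm_rot, inv_one, one_mul]
      exact hz2
  intro z hz z' hz' h3 h4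
  obtain ⟨w, hw, rfl, hw2⟩ := hpre z hz h3
  obtain ⟨w', hw', rfl, hw2'⟩ := hpre z' hz' h4
  have h5 := h2 w hw w' hw' hw2 hw2'
  have h6 := h1 w (subset_closure hw) w' (subset_closure hw') (by rwa [dist_eq_norm])
  rwa [dist_eq_norm] at h6

/-- zero-one law -/
theorem deg_ae (hpos : volume {t : UnitAddCircle | Deg S φ (toC t)} ≠ 0) :
    ∀ᵐ t ∂(AddCircle.haarAddCircle : Measure UnitAddCircle), Deg S φ (toC t) := by
  rw [haar_eq]
  have hord : addOrderOf (θ : UnitAddCircle) = 0 := by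
    rw [← AddCircle.denseRange_zsmul_iff, AddCircle.denseRange_zsmul_coe_iff, div_one]
    exact X.irr
  have herg : Ergodic ((θ : UnitAddCircle) + ·) (volume : Measure UnitAddCircle) :=
    AddCircle.ergodic_add_left.2 hord
  have hm := measurable_deg S φ
  have hsub : {t : UnitAddCircle | Deg S φ (toC t)} ⊆
      ((θ : UnitAddCircle) + ·) ⁻¹' {t : UnitAddCircle | Deg S φ (toC t)} := by
    intro t ht
    show Deg S φ (toC (θ + t))
    rw [toC_add, toC_rot]
    exact X.deg_rot ht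
  rcases herg.ae_empty_or_univ_of_ae_le_preimage hm.nullMeasurableSet hsub.eventuallyLE with h | h
  · exfalso
    apply hpos
    rw [measure_congr h, measure_empty]
  · filter_upwards [eventuallyEq_univ.1 h] with t ht
    exact ht

/-- a periodic point of the boundary belongs to the impression of every prime end -/
theorem periodic_rel {x : ℂ} (hx : x ∈ frontier S) {n : ℕ} (hn : 1 ≤ n)
    (hper : (rat P Q)^[n] x = x) {ζ : ℂ} (hζ : ‖ζ‖ = 1) : rel S φ ζ x := by
  obtain ⟨ζ0, hζ0, hrel⟩ := X.exists_rel_frontier hx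
  have hiter : ∀ k : ℕ, rel S φ (rot θ ^ (n * k) * ζ0) x := by
    intro k
    have h1 := X.rel_iter (n * k) hrel
    have h2 : (rat P Q)^[n * k] x = x := by
      rw [Function.iterate_mul]
      exact Function.iterate_fixed hper k
    rwa [h2] at h1
  have hirr : Irrational ((n : ℝ) * θ) := X.irr.natCast_mul (by omega)
  have hrotp : ∀ k : ℕ, rot ((n : ℝ) * θ) ^ k = rot θ ^ (n * k) := by
    intro k
    rw [pow_mul]
    congr 1
    unfold rot
    rw [← Complex.exp_nat_mul]
    congr 1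
    push_cast; ring
  intro ε hε
  obtain ⟨k, -, hk⟩ := dense_orbit hirr hζ0 hζ (half_pos hε) 0
  rw [hrotp] at hk
  obtain ⟨z, hz, h1, h2⟩ := hiter k (ε / 2) (by positivity)
  refine ⟨z, hz, ?_, by linarith⟩
  have e : φ z - ζ = (φ z - rot θ ^ (n * k) * ζ0) + (rot θ ^ (n * k) * ζ0 - ζ) := by ring
  rw [e]
  refine (norm_add_le _ _).trans_lt ?_
  linarith

/-- no periodic points -/
theorem no_periodic (hae : ∀ᵐ t ∂(AddCircle.haarAddCircle : Measure UnitAddCircle), Deg S φ (toC t))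
    {x : ℂ} (hx : x ∈ frontier S) {n : ℕ} (hn : 1 ≤ n) : (rat P Q)^[n] x ≠ x := by
  intro hper
  have h1 : ∀ᵐ t ∂(AddCircle.haarAddCircle : Measure UnitAddCircle), X.Y t = x := by
    filter_upwards [hae] with t ht
    exact ht.unique (X.periodic_rel hx hn hper (norm_toC t)) (X.rel_Y t)
  have h2 := X.mean_Y hae
  rw [integral_congr_ae h1] at h2
  rw [integral_const, probReal_univ, one_smul] at h2
  rw [frontier, X.op.interior_eq] at hx
  apply hx.2
  rw [h2]
  exact X.psi_mem zero_mem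

end Siegel

end Pool.Agent.H.MP_e98f69_an
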