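import Pool.Agent.H.MP_e98f69_an.Main
import Pool.Agent.H.MP_e98f69_an.Entropy

/-! Consequences of one degenerate impression, and of a positive measure of them. -/

set_option autoImplicit false

open Set Filter Topology Metric MeasureTheory

namespace Pool.Agent.H.MP_e98f69_an

namespace Siegel

variable {P Q : Polynomial ℂ} {S : Set ℂ} {θ : ℝ} {φ : ℂ → ℂ} (X : Siegel P Q S θ φ)

include X

/-- fixed points in the boundary are not attracting -/
theorem not_attracting {x : ℂ} (hx : x ∈ frontier S) (hfix : rat P Q x = x) :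
    1 ≤ ‖deriv (rat P Q) x‖ := by
  by_contra hcon
  push Not at hcon
  have hcl : x ∈ closure S := frontier_subset_closure hx
  have hxS : x ∉ S := by
    rw [frontier, X.op.interior_eq] at hx
    exact hx.2
  set b : ℝ := (‖deriv (rat P Q) x‖ + 1) / 2 with hb
  have hb0 : 0 ≤ b := by positivity
  have hb1 : b < 1 := by rw [hb]; linarith
  have hab : ‖deriv (rat P Q) x‖ < b := by rw [hb]; linarith
  obtain ⟨r, hr, hlip⟩ := local_lip (isCompact_singleton (x := x))
    (T := rat P Q) (by rintro y rfl; exact X.rat_an hcl) (norm_nonneg _) hab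
    (by rintro y rfl; exact le_rfl)
  obtain ⟨z, hz, hzr⟩ := Metric.mem_closure_iff.1 hcl r hr
  have hiter : ∀ n, (rat P Q)^[n] z ∈ S ∧ ‖φ ((rat P Q)^[n] z)‖ = ‖φ z‖ ∧
      dist x ((rat P Q)^[n] z) ≤ b ^ n * dist x z := by
    intro n
    induction n with
    | zero => exact ⟨hz, rfl, by simp⟩
    | succ n ih =>
      obtain ⟨h1, h2, h3⟩ := ih
      rw [Function.iterate_succ_apply']
      refine ⟨(X.dyn _ h1).1, ?_, ?_⟩
      · rw [(X.dyn _ h1).2, norm_mul, norm_rot, one_mul, h2]
      · have h4 : b ^ n * dist x z ≤ dist x z :=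
          mul_le_of_le_one_left dist_nonneg (pow_le_one₀ hb0 hb1.le)
        have h5 := hlip x rfl _ ((h3.trans h4).trans_lt hzr)
        rw [hfix] at h5
        calc _ ≤ b * dist x ((rat P Q)^[n] z) := h5
          _ ≤ b * (b ^ n * dist x z) := by gcongr
          _ = b ^ (n + 1) * dist x z := by ring
  have hne : φ z ≠ 0 := by
    intro h0
    have h1 : z = X.psi 0 := by rw [← h0, X.psi_phi hz]
    have h2 := (hiter 1).2.2
    rw [Function.iterate_one, h1, X.rat_fix, pow_one] at h2
    have h3 : dist x (X.psi 0) ≤ 0 := by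
      have := dist_nonneg (x := x) (y := X.psi 0)
      nlinarith
    have h4 : x = X.psi 0 := dist_le_zero.1 h3
    exact hxS (h4 ▸ X.psi_mem zero_mem)
  have hlog : -Real.log ‖φ z‖ ≤ 0 := by
    apply le_of_forall_pos_le_add
    intro ε hε
    rw [zero_add]
    obtain ⟨ρ0, hρ0, h1⟩ := X.exists_rad hxS hε
    have h2 : Tendsto (fun n : ℕ => b ^ n * dist x z) atTop (𝓝 0) := by
      have := (tendsto_pow_atTop_nhds_zero_of_lt_one hb0 hb1).mul_const (dist x z)
      simpa using this
    obtain ⟨n, hn⟩ := (h2.eventually (gt_mem_nhds hρ0)).exists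
    obtain ⟨h3, h4, h5⟩ := hiter n
    have h6 := h1 _ h3 (by
      rw [← dist_eq_norm, dist_comm]
      exact h5.trans_lt hn)
    rwa [h4] at h6
  have hpos : 0 < ‖φ z‖ := norm_pos_iff.2 hne
  have hlt : ‖φ z‖ < 1 := mem_ball_zero_iff.1 (X.phi_mem hz)
  have := Real.log_neg hpos hlt
  linarith

/-- one degenerate impression: a periodic point of the boundary is an indifferent fixed point
and it is the point of this impression -/
theorem one_deg {ζ : ℂ} (hζ : ‖ζ‖ = 1) (hdeg : Deg S φ ζ) {x : ℂ} (hx : x ∈ frontier S) {n : ℕ}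
    (hn : 1 ≤ n) (hper : (rat P Q)^[n] x = x) :
    rat P Q x = x ∧ ‖deriv (rat P Q) x‖ = 1 ∧ rel S φ ζ x := by
  have h1 : rel S φ ζ x := X.periodic_rel hx hn hper hζ
  have hper' : (rat P Q)^[n] (rat P Q x) = rat P Q x := by
    rw [← Function.iterate_succ_apply, Function.iterate_succ_apply', hper]
  have h2 : rel S φ ζ (rat P Q x) := X.periodic_rel (X.rat_frontier hx) hn hper' hζ
  have hfix : rat P Q x = x := hdeg.unique h1 h2
  refine ⟨hfix, le_antisymm ?_ (X.not_attracting hx hfix), h1⟩
  by_contra hcon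
  push Not at hcon
  obtain ⟨δ, hδ, h3⟩ := X.large_impressions (K := {x}) isCompact_singleton (singleton_nonempty x)
    (by rintro y rfl; exact hx) (by rintro y rfl; exact hfix) (p := 1)
    (by rintro y rfl; simpa using hcon)
  obtain ⟨δ', hδ', h4⟩ := hdeg δ hδ
  obtain ⟨z, hz, z', hz', h5, h6, h7⟩ := h3 ζ hζ δ' hδ'
  exact absurd (h4 z hz z' hz' h5 h6) (not_lt.2 h7)

theorem frontier_nonempty : (frontier S).Nonempty := by
  obtain ⟨y, hy⟩ := X.exists_rel' (ζ := 1) (by simp)
  exact ⟨y, X.rel_frontier hy (by simp)⟩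

theorem frontier_compact : IsCompact (frontier S) :=
  X.bdd.isCompact_closure.of_isClosed_subset isClosed_frontier frontier_subset_closure

/-- zero entropy -/
theorem entropy (hae : ∀ᵐ t ∂(AddCircle.haarAddCircle : Measure UnitAddCircle), Deg S φ (toC t)) :
    Dynamics.coverEntropy (rat P Q) (frontier S) = 0 := by
  refine entropy_zero X.frontier_compact X.frontier_nonempty (fun x hx => X.rat_frontier hx)
    (fun n x hx => X.iter_an n (frontier_subset_closure hx)) ?_
  intro ε hε
  obtain ⟨N0, hN0⟩ := X.growth hae hε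
  exact ⟨N0 + 1, by omega, fun x hx => hN0 (N0 + 1) (by omega) x hx⟩

/-- from measure on the interval to measure on the circle -/
theorem ae_of_pos (hpos : volume {t : ℝ | t ∈ Icc (0 : ℝ) 1 ∧
    Deg S φ (Complex.exp (2 * Real.pi * Complex.I * (t : ℂ)))} ≠ 0) :
    ∀ᵐ t ∂(AddCircle.haarAddCircle : Measure UnitAddCircle), Deg S φ (toC t) := by
  apply X.deg_ae
  intro h0
  apply hpos
  have hmp := UnitAddCircle.measurePreserving_mk 0
  have h1 := hmp.measure_preimage (measurable_deg S φ).nullMeasurableSet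
  rw [h0] at h1
  rw [Measure.restrict_apply (hmp.measurable (measurable_deg S φ))] at h1
  have h2 : {t : ℝ | t ∈ Icc (0 : ℝ) 1 ∧
      Deg S φ (Complex.exp (2 * Real.pi * Complex.I * (t : ℂ)))} ⊆
      ((fun x : ℝ => (x : UnitAddCircle)) ⁻¹' {t : UnitAddCircle | Deg S φ (toC t)} ∩
        Ioc 0 (0 + 1)) ∪ {0} := by
    rintro t ⟨ht1, ht2⟩
    rcases eq_or_lt_of_le ht1.1 with h | h
    · right; exact h.symm
    · left
      refine ⟨?_, h, by linarith [ht1.2]⟩
      show Deg S φ (toC (t : UnitAddCircle))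
      rw [toC_coe]
      exact ht2
  refine measure_mono_null h2 ?_
  rw [measure_union_null_iff]
  exact ⟨h1, by simp⟩

end Siegel

end Pool.Agent.H.MP_e98f69_an
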