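import Pool.Agent.H.MP_e98f69_an.Expand

/-! Jensen's formula for the inverse linearizing map and the potential inequality. -/

set_option autoImplicit false

open Set Filter Topology Metric MeasureTheory

namespace Pool.Agent.H.MP_e98f69_an

/-- the truncated logarithmic potential `log max(|w - c|, ρ)` -/
noncomputable def ell (c : ℂ) (ρ : ℝ) (w : ℂ) : ℝ := Real.log (max ‖w - c‖ ρ)

lemma continuous_ell (c : ℂ) {ρ : ℝ} (hρ : 0 < ρ) : Continuous (ell c ρ) := by
  unfold ell
  apply Continuous.log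
  · fun_prop
  · intro w
    exact (lt_max_of_lt_right hρ).ne'

lemma log_le_ell (c : ℂ) {ρ : ℝ} (hρ : 0 < ρ) (w : ℂ) : Real.log ρ ≤ ell c ρ w :=
  Real.log_le_log hρ (le_max_right _ _)

lemma ell_eq (c w : ℂ) {ρ : ℝ} (hρ : 0 < ρ) :
    Real.circleAverage (fun z => Real.log ‖z - w‖) c ρ = ell c ρ w := by
  rw [circleAverage_log_norm_sub_const_eq_log_radius_add_posLog hρ.ne', norm_sub_rev c w]
  unfold ell
  rcases le_or_gt ‖w - c‖ ρ with h | h
  · rw [max_eq_right h]
    have h1 : Real.posLog (ρ⁻¹ * ‖w - c‖) = 0 := by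
      rw [Real.posLog_eq_zero_iff, abs_of_nonneg (by positivity)]
      rw [inv_mul_le_iff₀ hρ, mul_one]
      exact h
    rw [h1, add_zero]
  · rw [max_eq_left h.le]
    have hpos : 0 < ‖w - c‖ := hρ.trans h
    have h1 : Real.posLog (ρ⁻¹ * ‖w - c‖) = Real.log (ρ⁻¹ * ‖w - c‖) := by
      apply Real.posLog_eq_log
      rw [abs_of_nonneg (by positivity), le_inv_mul_iff₀ hρ, mul_one]
      exact h.le
    rw [h1, Real.log_mul (by positivity) hpos.ne', Real.log_inv]
    ring

namespace Siegel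

variable {P Q : Polynomial ℂ} {S : Set ℂ} {θ : ℝ} {φ : ℂ → ℂ} (X : Siegel P Q S θ φ)

include X

theorem psi_inj {a b : ℂ} (ha : a ∈ ball (0 : ℂ) 1) (hb : b ∈ ball (0 : ℂ) 1)
    (h : X.psi a = X.psi b) : a = b := by
  have := congrArg φ h
  rwa [X.phi_psi ha, X.phi_psi hb] at this

theorem deriv_psi_ne {w : ℂ} (hw : w ∈ ball (0 : ℂ) 1) : deriv X.psi w ≠ 0 := by
  intro h
  have := X.deriv_mul (X.psi_mem hw)
  rw [X.phi_psi hw, h, mul_zero] at this
  exact zero_ne_one this

theorem psi_anOn {r : ℝ} (hr : r < 1) : AnalyticOnNhd ℂ X.psi (closedBall 0 r) := fun _ hw =>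
  X.psi_an (mem_ball_zero_iff.2 ((mem_closedBall_zero_iff.1 hw).trans_lt hr))

/-- Jensen's formula for `ψ - z`, as an inequality. -/
theorem jensen_le {r : ℝ} (hr0 : 0 < r) (hr1 : r < 1) {z : ℂ} (hz : z ≠ X.psi 0) {ε : ℝ}
    (hε : 0 ≤ ε) (h : z ∈ S → -Real.log ‖φ z‖ ≤ ε) :
    Real.circleAverage (fun ζ => Real.log ‖X.psi ζ - z‖) 0 r ≤ Real.log ‖X.psi 0 - z‖ + ε := by
  have hsub : closedBall (0 : ℂ) r ⊆ ball 0 1 := closedBall_subset_ball hr1
  by_cases hex : ∃ a ∈ closedBall (0 : ℂ) r, X.psi a = z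
  · obtain ⟨a, ha, rfl⟩ := hex
    have ha1 := hsub ha
    have hS := X.psi_mem ha1
    have h' := h hS
    rw [X.phi_psi ha1] at h'
    have ha0 : a ≠ 0 := by rintro rfl; exact hz rfl
    -- the quotient
    set k : ℂ → ℂ := dslope X.psi a with hk
    have hkd : DifferentiableOn ℂ k (ball 0 1) :=
      (Complex.differentiableOn_dslope (isOpen_ball.mem_nhds ha1)).2 X.psi_diff
    have hkan : AnalyticOnNhd ℂ k (closedBall 0 |r|) := by
      rw [abs_of_pos hr0]
      exact fun w hw => hkd.analyticAt (isOpen_ball.mem_nhds (hsub hw))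
    have hkne : ∀ u ∈ closedBall (0 : ℂ) |r|, k u ≠ 0 := by
      rw [abs_of_pos hr0]
      intro u hu
      by_cases hua : u = a
      · rw [hua, hk, dslope_same]
        exact X.deriv_psi_ne ha1
      · rw [hk, dslope_of_ne _ hua, slope_def_field]
        refine div_ne_zero ?_ (sub_ne_zero.2 hua)
        rw [sub_ne_zero]
        exact fun h => hua (X.psi_inj (hsub hu) ha1 h)
    have hfac : ∀ ζ, ζ ≠ a → X.psi ζ - X.psi a = (ζ - a) * k ζ := by
      intro ζ hζ
      rw [hk, dslope_of_ne _ hζ, slope_def_field, mul_div_cancel₀ _ (sub_ne_zero.2 hζ)]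
    have h1 : Real.circleAverage (fun ζ => Real.log ‖X.psi ζ - X.psi a‖) 0 r =
        Real.circleAverage ((fun ζ => Real.log ‖ζ - a‖) + fun ζ => Real.log ‖k ζ‖) 0 r := by
      unfold Real.circleAverage
      congr 1
      apply intervalIntegral.integral_congr_ae
      have h0 : volume {t : ℝ | circleMap 0 r t = a} = 0 :=
        ((countable_singleton a).preimage_circleMap 0 hr0.ne').measure_zero _
      filter_upwards [measure_eq_zero_iff_ae_notMem.mp h0] with t ht _
      have hne : circleMap 0 r t ≠ a := ht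
      have hmem : circleMap 0 r t ∈ closedBall (0 : ℂ) |r| := by
        rw [abs_of_pos hr0]
        exact circleMap_mem_closedBall 0 hr0.le t
      simp only [Pi.add_apply]
      rw [hfac _ hne, norm_mul, Real.log_mul (norm_ne_zero_iff.2 (sub_ne_zero.2 hne))
        (norm_ne_zero_iff.2 (hkne _ hmem))]
    rw [h1, Real.circleAverage_add (circleIntegrable_log_norm_sub_const r)
      ((hkan.mono sphere_subset_closedBall).meromorphicOn.circleIntegrable_log_norm)]
    rw [circleAverage_log_norm_sub_const_of_mem_closedBall (by rwa [abs_of_pos hr0]),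
      hkan.circleAverage_log_norm_of_ne_zero hkne]
    have h2 : X.psi 0 - X.psi a = (0 - a) * k 0 := hfac 0 (Ne.symm ha0)
    have h3 : Real.log ‖X.psi 0 - X.psi a‖ = Real.log ‖a‖ + Real.log ‖k 0‖ := by
      rw [h2, norm_mul, zero_sub, norm_neg, Real.log_mul (norm_ne_zero_iff.2 ha0)]
      exact norm_ne_zero_iff.2 (hkne 0 (by simp))
    have h4 : Real.log r ≤ 0 := Real.log_nonpos hr0.le hr1.le
    linarith
  · push Not at hex
    have han : AnalyticOnNhd ℂ (fun ζ => X.psi ζ - z) (closedBall 0 |r|) := by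
      rw [abs_of_pos hr0]
      exact (X.psi_anOn hr1).sub analyticOnNhd_const
    have := han.circleAverage_log_norm_of_ne_zero (fun u hu => by
      rw [abs_of_pos hr0] at hu
      exact sub_ne_zero.2 (hex u hu))
    rw [this]
    linarith

end Siegel

/-- Fubini for the logarithmic kernel on the product of a curve and a circle -/
lemma integrable_log_kernel {γ : ℝ → ℂ} (hγ : Continuous γ) (c : ℂ) {ρ : ℝ} (hρ : 0 < ρ) :
    Integrable (Function.uncurry fun t s : ℝ => Real.log ‖circleMap c ρ s - γ t‖)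
      ((volume.restrict (Ioc 0 (2 * Real.pi))).prod (volume.restrict (Ioc 0 (2 * Real.pi)))) := by
  have hmeas : Measurable (Function.uncurry fun t s : ℝ => Real.log ‖circleMap c ρ s - γ t‖) := by
    apply Real.measurable_log.comp
    have : Continuous (fun p : ℝ × ℝ => ‖circleMap c ρ p.2 - γ p.1‖) := by
      have h1 : Continuous (circleMap c ρ) := continuous_circleMap c ρ
      fun_prop
    exact this.measurable
  have hint : ∀ t : ℝ, Integrable (fun s => Real.log ‖circleMap c ρ s - γ t‖)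
      (volume.restrict (Ioc 0 (2 * Real.pi))) := by
    intro t
    have h1 : CircleIntegrable (fun z => Real.log ‖z - γ t‖) c ρ :=
      circleIntegrable_log_norm_sub_const ρ
    exact ((intervalIntegrable_iff_integrableOn_Ioc_of_le Real.two_pi_pos.le).1 h1)
  rw [integrable_prod_iff hmeas.aestronglyMeasurable]
  refine ⟨Eventually.of_forall hint, ?_⟩
  -- bound for the inner integral
  have hcomp : IsCompact (Icc (0 : ℝ) (2 * Real.pi)) := isCompact_Icc
  obtain ⟨M, hM⟩ := hcomp.exists_bound_of_continuousOn (f := γ) hγ.continuousOn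
  set B : ℝ := ‖c‖ + ρ + |M| + 1 with hB
  have hB1 : 1 ≤ B := by rw [hB]; have := abs_nonneg M; have := norm_nonneg c; linarith
  have hBlog : 0 ≤ Real.log B := Real.log_nonneg hB1
  have hle : ∀ t ∈ Icc (0 : ℝ) (2 * Real.pi), ∀ s, Real.log ‖circleMap c ρ s - γ t‖ ≤ Real.log B := by
    intro t ht s
    rcases eq_or_lt_of_le (norm_nonneg (circleMap c ρ s - γ t)) with h | h
    · rw [← h, Real.log_zero]; exact hBlog
    · apply Real.log_le_log h
      have e1 : ‖circleMap c ρ s‖ ≤ ‖c‖ + ρ := by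
        have : circleMap c ρ s = c + (circleMap c ρ s - c) := by ring
        rw [this]
        refine (norm_add_le _ _).trans ?_
        rw [circleMap_sub_center, norm_circleMap_zero, abs_of_pos hρ]
      have e2 := hM t ht
      have e3 := le_abs_self M
      calc ‖circleMap c ρ s - γ t‖ ≤ ‖circleMap c ρ s‖ + ‖γ t‖ := norm_sub_le _ _
        _ ≤ B := by rw [hB]; linarith
  have hbd : ∀ t ∈ Icc (0 : ℝ) (2 * Real.pi),
      ∫ s in Ioc 0 (2 * Real.pi), ‖Real.log ‖circleMap c ρ s - γ t‖‖ ≤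
        2 * (2 * Real.pi) * Real.log B - 2 * Real.pi * Real.log ρ := by
    intro t ht
    have e1 : ∀ s, ‖Real.log ‖circleMap c ρ s - γ t‖‖ ≤
        2 * Real.log B - Real.log ‖circleMap c ρ s - γ t‖ := by
      intro s
      have := hle t ht s
      rw [Real.norm_eq_abs, abs_le]
      constructor <;> linarith
    calc ∫ s in Ioc 0 (2 * Real.pi), ‖Real.log ‖circleMap c ρ s - γ t‖‖
        ≤ ∫ s in Ioc 0 (2 * Real.pi), (2 * Real.log B - Real.log ‖circleMap c ρ s - γ t‖) := by
          apply integral_mono (hint t).norm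
          · exact (integrable_const _).sub (hint t)
          · intro s; exact e1 s
      _ = 2 * (2 * Real.pi) * Real.log B -
          ∫ s in Ioc 0 (2 * Real.pi), Real.log ‖circleMap c ρ s - γ t‖ := by
          rw [integral_sub (integrable_const _) (hint t)]
          congr 1
          rw [setIntegral_const]
          simp only [Real.volume_real_Ioc, smul_eq_mul, sub_zero]
          rw [max_eq_left Real.two_pi_pos.le]
          ring
      _ ≤ _ := by
          have e2 := ell_eq c (γ t) hρ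
          unfold Real.circleAverage at e2
          rw [intervalIntegral.integral_of_le Real.two_pi_pos.le, smul_eq_mul] at e2
          have e3 := log_le_ell c hρ (γ t)
          rw [← e2] at e3
          have hpi := Real.two_pi_pos
          rw [inv_mul_eq_div, le_div_iff₀ hpi] at e3
          linarith
  have hmeas2 : AEStronglyMeasurable
      (fun t => ∫ s in Ioc 0 (2 * Real.pi), ‖Real.log ‖circleMap c ρ s - γ t‖‖)
      (volume.restrict (Ioc 0 (2 * Real.pi))) := by
    have := (hmeas.aestronglyMeasurable (μ := (volume.restrict (Ioc 0 (2 * Real.pi))).prod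
      (volume.restrict (Ioc 0 (2 * Real.pi))))).norm.integral_prod_right'
    exact this
  refine Integrable.of_bound hmeas2
    (2 * (2 * Real.pi) * Real.log B - 2 * Real.pi * Real.log ρ) ?_
  filter_upwards [ae_restrict_mem measurableSet_Ioc] with t ht
  have ht' : t ∈ Icc (0 : ℝ) (2 * Real.pi) := Ioc_subset_Icc_self ht
  have h1 := hbd t ht'
  have h2 : 0 ≤ ∫ s in Ioc 0 (2 * Real.pi), ‖Real.log ‖circleMap c ρ s - γ t‖‖ :=
    integral_nonneg fun _ => norm_nonneg _
  rw [Real.norm_eq_abs, abs_of_nonneg]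
  · exact h1
  · exact h2

namespace Siegel

variable {P Q : Polynomial ℂ} {S : Set ℂ} {θ : ℝ} {φ : ℂ → ℂ} (X : Siegel P Q S θ φ)

include X

/-- the potential inequality at radius `r < 1` -/
theorem potential_le {r : ℝ} (hr0 : 0 < r) (hr1 : r < 1) {c : ℂ} {ρ : ℝ} (hρ : 0 < ρ)
    (hρc : ρ < ‖X.psi 0 - c‖) {ε : ℝ} (hε : 0 ≤ ε)
    (h : ∀ z ∈ S, ‖z - c‖ = ρ → -Real.log ‖φ z‖ ≤ ε) :
    Real.circleAverage (fun ζ => ell c ρ (X.psi ζ)) 0 r ≤ Real.log ‖X.psi 0 - c‖ + ε := by
  set γ : ℝ → ℂ := fun t => X.psi (circleMap 0 r t) with hγdef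
  have hγ : Continuous γ := by
    rw [continuous_iff_continuousAt]
    intro t
    have hm : circleMap 0 r t ∈ ball (0 : ℂ) 1 := by
      rw [mem_ball_zero_iff, norm_circleMap_zero, abs_of_pos hr0]
      exact hr1
    exact (X.psi_cont hm).comp (continuous_circleMap 0 r).continuousAt
  have hpi := Real.two_pi_pos
  have hI := integrable_log_kernel hγ c hρ
  have hswap := integral_integral_swap (f := fun t s : ℝ => Real.log ‖circleMap c ρ s - γ t‖) hI
  -- left hand side
  have h1 : ∀ t, ∫ s in Ioc 0 (2 * Real.pi), Real.log ‖circleMap c ρ s - γ t‖ =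
      2 * Real.pi * ell c ρ (γ t) := by
    intro t
    have e2 := ell_eq c (γ t) hρ
    unfold Real.circleAverage at e2
    rw [intervalIntegral.integral_of_le hpi.le, smul_eq_mul] at e2
    rw [← e2]
    field_simp
  -- right hand side
  have h2 : ∀ s, ∫ t in Ioc 0 (2 * Real.pi), Real.log ‖circleMap c ρ s - γ t‖ ≤
      2 * Real.pi * (Real.log ‖circleMap c ρ s - X.psi 0‖ + ε) := by
    intro s
    have hz : circleMap c ρ s ≠ X.psi 0 := by
      intro he
      rw [← he, circleMap_sub_center, norm_circleMap_zero, abs_of_pos hρ] at hρc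
      exact lt_irrefl _ hρc
    have e1 := X.jensen_le hr0 hr1 hz hε (fun hS => h _ hS (by
      rw [circleMap_sub_center, norm_circleMap_zero, abs_of_pos hρ]))
    unfold Real.circleAverage at e1
    rw [intervalIntegral.integral_of_le hpi.le, smul_eq_mul, inv_mul_eq_div,
      div_le_iff₀ hpi] at e1
    have e2 : ∀ t, Real.log ‖circleMap c ρ s - γ t‖ =
        Real.log ‖X.psi (circleMap 0 r t) - circleMap c ρ s‖ := by
      intro t; rw [norm_sub_rev]
    simp only [e2]
    rw [norm_sub_rev (circleMap c ρ s)]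
    linarith
  have hint0 : Integrable (fun s => Real.log ‖circleMap c ρ s - X.psi 0‖)
      (volume.restrict (Ioc 0 (2 * Real.pi))) := by
    have h1 : CircleIntegrable (fun z => Real.log ‖z - X.psi 0‖) c ρ :=
      circleIntegrable_log_norm_sub_const ρ
    exact ((intervalIntegrable_iff_integrableOn_Ioc_of_le Real.two_pi_pos.le).1 h1)
  have h3 : ∫ s in Ioc 0 (2 * Real.pi), (∫ t in Ioc 0 (2 * Real.pi),
      Real.log ‖circleMap c ρ s - γ t‖) ≤
      ∫ s in Ioc 0 (2 * Real.pi), 2 * Real.pi * (Real.log ‖circleMap c ρ s - X.psi 0‖ + ε) := by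
    apply integral_mono
    · exact hI.integral_prod_right
    · exact (hint0.add (integrable_const _)).const_mul _
    · intro s; exact h2 s
  have h4 : ∫ s in Ioc 0 (2 * Real.pi), 2 * Real.pi *
      (Real.log ‖circleMap c ρ s - X.psi 0‖ + ε) =
      2 * Real.pi * (2 * Real.pi * (Real.log ‖X.psi 0 - c‖ + ε)) := by
    rw [integral_const_mul, integral_add hint0 (integrable_const _), setIntegral_const]
    have e2 := ell_eq c (X.psi 0) hρ
    unfold Real.circleAverage at e2
    rw [intervalIntegral.integral_of_le hpi.le, smul_eq_mul] at e2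
    have e3 : ell c ρ (X.psi 0) = Real.log ‖X.psi 0 - c‖ := by
      unfold ell
      rw [max_eq_left hρc.le]
    have e4 : ∫ s in Ioc 0 (2 * Real.pi), Real.log ‖circleMap c ρ s - X.psi 0‖ =
        2 * Real.pi * Real.log ‖X.psi 0 - c‖ := by
      rw [← e3, ← e2]
      field_simp
    rw [e4]
    simp only [Real.volume_real_Ioc, smul_eq_mul, sub_zero]
    rw [max_eq_left hpi.le]
    ring
  rw [h4, ← hswap] at h3
  simp only [h1] at h3
  rw [integral_const_mul] at h3
  have h5 := le_of_mul_le_mul_left h3 hpi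
  unfold Real.circleAverage
  rw [intervalIntegral.integral_of_le hpi.le, smul_eq_mul, inv_mul_eq_div, div_le_iff₀ hpi]
  calc _ ≤ 2 * Real.pi * (Real.log ‖X.psi 0 - c‖ + ε) := h5
    _ = _ := by ring

/-- for `c` outside `S`, `|φ|` is close to `1` near `c` -/
theorem exists_rad {c : ℂ} (hc : c ∉ S) {ε : ℝ} (hε : 0 < ε) : ∃ ρ0 > 0, ∀ z ∈ S,
    ‖z - c‖ < ρ0 → -Real.log ‖φ z‖ ≤ ε := by
  set C : Set ℂ := X.psi '' closedBall 0 (Real.exp (-ε)) with hC
  have hlt : Real.exp (-ε) < 1 := by
    rw [← Real.exp_zero]; exact Real.exp_lt_exp.2 (by linarith)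
  have hsub : closedBall (0 : ℂ) (Real.exp (-ε)) ⊆ ball 0 1 := closedBall_subset_ball hlt
  have hCc : IsCompact C :=
    (isCompact_closedBall _ _).image_of_continuousOn (X.psi_diff.continuousOn.mono hsub)
  have hcC : c ∉ C := by
    rintro ⟨w, hw, rfl⟩
    exact hc (X.psi_mem (hsub hw))
  obtain ⟨ρ0, hρ0, hρ1⟩ := Metric.isOpen_iff.1 hCc.isClosed.isOpen_compl c hcC
  refine ⟨ρ0, hρ0, fun z hz hzc => ?_⟩
  have h1 : z ∉ C := hρ1 (mem_ball_iff_norm.2 hzc)
  by_contra hcon
  push Not at hcon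
  apply h1
  refine ⟨φ z, ?_, X.psi_phi hz⟩
  rw [mem_closedBall_zero_iff]
  rcases eq_or_lt_of_le (norm_nonneg (φ z)) with h | h
  · rw [← h]; exact (Real.exp_pos _).le
  · rw [← Real.log_le_iff_le_exp h]
    linarith

theorem exists_potential {c : ℂ} (hc : c ∉ S) {ε : ℝ} (hε : 0 < ε) : ∃ ρ0 > 0, ∀ ρ, 0 < ρ → ρ < ρ0 →
    ∀ r, 0 < r → r < 1 →
    Real.circleAverage (fun ζ => ell c ρ (X.psi ζ)) 0 r ≤ Real.log ‖X.psi 0 - c‖ + ε := by
  obtain ⟨ρ0, hρ0, h⟩ := X.exists_rad hc hε
  have hpos : 0 < ‖X.psi 0 - c‖ := by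
    rw [norm_pos_iff, sub_ne_zero]
    rintro rfl
    exact hc (X.psi_mem zero_mem)
  refine ⟨min ρ0 ‖X.psi 0 - c‖, lt_min hρ0 hpos, fun ρ hρ hρ2 r hr0 hr1 => ?_⟩
  refine X.potential_le hr0 hr1 hρ (hρ2.trans_le (min_le_right _ _)) hε.le ?_
  intro z hz hzc
  exact h z hz (by rw [hzc]; exact hρ2.trans_le (min_le_left _ _))

end Siegel

end Pool.Agent.H.MP_e98f69_an
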