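import Pool.Agent.H.MP_e98f69_an.Basic

/-! Irrational rotations: density of orbits and uniform equidistribution. -/

set_option autoImplicit false

open Set Filter Topology Metric MeasureTheory

namespace Pool.Agent.H.MP_e98f69_an

/-- the unit circle parametrized by `ℝ / ℤ` -/
noncomputable def toC (s : UnitAddCircle) : ℂ := (AddCircle.toCircle s : ℂ)

lemma toC_coe (t : ℝ) : toC (t : UnitAddCircle) = Complex.exp (2 * Real.pi * Complex.I * (t : ℂ)) := by
  unfold toC
  rw [AddCircle.toCircle_apply_mk, Circle.coe_exp]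
  congr 1
  push_cast
  ring

lemma toC_rot (t : ℝ) : toC (t : UnitAddCircle) = rot t := toC_coe t

lemma toC_add (s t : UnitAddCircle) : toC (s + t) = toC s * toC t := by
  unfold toC
  rw [AddCircle.toCircle_add, Circle.coe_mul]

lemma toC_nsmul (n : ℕ) (s : UnitAddCircle) : toC (n • s) = toC s ^ n := by
  unfold toC
  rw [AddCircle.toCircle_nsmul, Circle.coe_pow]

lemma norm_toC (s : UnitAddCircle) : ‖toC s‖ = 1 := Circle.norm_coe _

lemma continuous_toC : Continuous toC :=
  continuous_subtype_val.comp AddCircle.continuous_toCircle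

lemma exists_toC {ζ : ℂ} (h : ‖ζ‖ = 1) : ∃ t : ℝ, toC (t : UnitAddCircle) = ζ := by
  refine ⟨Complex.arg ζ / (2 * Real.pi), ?_⟩
  rw [toC_coe]
  have h1 : (2 * Real.pi * Complex.I * ((Complex.arg ζ / (2 * Real.pi) : ℝ) : ℂ)) =
      Complex.arg ζ * Complex.I := by
    have : (Real.pi : ℂ) ≠ 0 := by exact_mod_cast Real.pi_ne_zero
    push_cast
    field_simp
  rw [h1]
  have h2 := Complex.norm_mul_exp_arg_mul_I ζ
  rw [h] at h2
  simpa using h2

lemma dense_orbit {α : ℝ} (hα : Irrational α) {ζ ζ' : ℂ} (h : ‖ζ‖ = 1) (h' : ‖ζ'‖ = 1)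
    {ε : ℝ} (hε : 0 < ε) (N : ℕ) : ∃ n ≥ N, ‖rot α ^ n * ζ - ζ'‖ < ε := by
  have hζ : ζ ≠ 0 := by rw [← norm_pos_iff, h]; exact one_pos
  obtain ⟨y, hy⟩ := exists_toC (ζ := ζ' / ζ) (by rw [norm_div, h, h', div_one])
  have hd : DenseRange (· • (α : UnitAddCircle) : ℤ → UnitAddCircle) := by
    rw [AddCircle.denseRange_zsmul_coe_iff, div_one]
    exact hα
  have hm : MapClusterPt (y : UnitAddCircle) atTop (· • (α : UnitAddCircle) : ℕ → UnitAddCircle) :=
    ((mapClusterPt_atTop_nsmul_tfae (y : UnitAddCircle) (α : UnitAddCircle)).out 0 3).2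
      (hd (y : UnitAddCircle))
  have hm2 := hm.continuousAt_comp continuous_toC.continuousAt
  have hf := hm2.frequently (ball_mem_nhds _ hε)
  obtain ⟨n, hn, hn2⟩ := (frequently_atTop.1 hf) N
  refine ⟨n, hn, ?_⟩
  have h3 : toC (n • (α : UnitAddCircle)) = rot α ^ n := by rw [toC_nsmul, toC_rot]
  have h4 : dist (toC (n • (α : UnitAddCircle))) (toC y) < ε := hn2
  rw [h3, hy, dist_eq_norm] at h4
  have h5 : rot α ^ n * ζ - ζ' = (rot α ^ n - ζ' / ζ) * ζ := by field_simp
  rw [h5, norm_mul, h, mul_one]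
  exact h4

/-! ### Weyl equidistribution, uniform in the starting point -/

/-- Birkhoff averages of a continuous function -/
noncomputable def avg (α : ℝ) (N : ℕ) (f : C(UnitAddCircle, ℂ)) (t : UnitAddCircle) : ℂ :=
  (∑ n ∈ Finset.range N, f (n • (α : UnitAddCircle) + t)) / (N : ℂ)

lemma integral_fourier (n : ℤ) (hn : n ≠ 0) :
    ∫ x : UnitAddCircle, fourier n x ∂AddCircle.haarAddCircle = 0 := by
  have h := congrFun (fourierCoeff_fourier (T := 1) n) 0
  unfold fourierCoeff at h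
  simpa [hn, Pi.single_apply, hn.symm] using h

lemma avg_norm_le (α : ℝ) (N : ℕ) (f : C(UnitAddCircle, ℂ)) (t : UnitAddCircle) :
    ‖avg α N f t‖ ≤ ‖f‖ := by
  unfold avg
  rw [norm_div, Complex.norm_natCast]
  rcases Nat.eq_zero_or_pos N with h | h
  · subst h; simp
  rw [div_le_iff₀ (by exact_mod_cast h)]
  refine (norm_sum_le _ _).trans ?_
  calc ∑ n ∈ Finset.range N, ‖f (n • (α : UnitAddCircle) + t)‖
      ≤ ∑ n ∈ Finset.range N, ‖f‖ := Finset.sum_le_sum (fun n _ => f.norm_coe_le_norm _)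
    _ = ‖f‖ * N := by simp [mul_comm]

lemma avg_add (α : ℝ) (N : ℕ) (f g : C(UnitAddCircle, ℂ)) (t : UnitAddCircle) :
    avg α N (f + g) t = avg α N f t + avg α N g t := by
  unfold avg
  simp only [ContinuousMap.add_apply, Finset.sum_add_distrib, add_div]

lemma avg_smul (α : ℝ) (N : ℕ) (c : ℂ) (f : C(UnitAddCircle, ℂ)) (t : UnitAddCircle) :
    avg α N (c • f) t = c * avg α N f t := by
  unfold avg
  simp only [ContinuousMap.smul_apply, smul_eq_mul, ← Finset.mul_sum, mul_div_assoc]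

lemma cont_integrable (f : C(UnitAddCircle, ℂ)) :
    Integrable (fun x => f x) AddCircle.haarAddCircle :=
  f.continuous.integrable_of_hasCompactSupport (HasCompactSupport.of_compactSpace _)

lemma fourier_rot (α : ℝ) (hα : Irrational α) (m : ℤ) (hm : m ≠ 0) :
    fourier m (α : UnitAddCircle) ≠ 1 := by
  rw [fourier_coe_apply]
  intro h
  rw [Complex.exp_eq_one_iff] at h
  obtain ⟨k, hk⟩ := h
  have hpi : (2 * Real.pi * Complex.I : ℂ) ≠ 0 := Complex.two_pi_I_ne_zero
  have h1 : (m : ℂ) * (α : ℂ) = k := by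
    have : (2 * Real.pi * Complex.I : ℂ) * ((m : ℂ) * (α : ℂ)) = (2 * Real.pi * Complex.I) * k := by
      push_cast at hk
      rw [div_one] at hk
      linear_combination hk
    exact mul_left_cancel₀ hpi this
  have h2 : (m : ℝ) * α = k := by exact_mod_cast h1
  have h3 : Irrational ((m : ℝ) * α) := hα.intCast_mul hm
  rw [h2] at h3
  exact (Int.not_irrational k) h3

lemma avg_fourier (α : ℝ) (hα : Irrational α) (m : ℤ) :
    ∀ ε > 0, ∃ N0 : ℕ, ∀ N ≥ N0, ∀ t, ‖avg α N (fourier m) t -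
      ∫ x : UnitAddCircle, fourier m x ∂AddCircle.haarAddCircle‖ ≤ ε := by
  intro ε hε
  rcases eq_or_ne m 0 with hm | hm
  · subst hm
    refine ⟨1, fun N hN t => ?_⟩
    have h1 : avg α N (fourier 0) t = 1 := by
      unfold avg
      simp only [fourier_zero, Finset.sum_const, Finset.card_range, nsmul_eq_mul, mul_one]
      exact div_self (by exact_mod_cast (by omega : N ≠ 0))
    rw [h1]
    simp [hε.le]
  · rw [integral_fourier m hm]
    set q : ℂ := fourier m (α : UnitAddCircle) with hq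
    have hq1 : q ≠ 1 := fourier_rot α hα m hm
    have hqn : ‖q‖ = 1 := by rw [hq]; exact Circle.norm_coe _
    have hpos : 0 < ‖q - 1‖ := norm_pos_iff.2 (sub_ne_zero.2 hq1)
    obtain ⟨N0, hN0⟩ := exists_nat_gt (2 / ‖q - 1‖ / ε)
    refine ⟨N0 + 1, fun N hN t => ?_⟩
    have hNpos : (0 : ℝ) < N := by exact_mod_cast (by omega : 0 < N)
    have h1 : avg α N (fourier m) t = fourier m t * ((q ^ N - 1) / (q - 1)) / N := by
      unfold avg
      congr 1
      rw [← geom_sum_eq hq1, Finset.mul_sum]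
      refine Finset.sum_congr rfl fun n _ => ?_
      rw [hq, fourier_apply, fourier_apply, fourier_apply, smul_add, AddCircle.toCircle_add,
        smul_comm, AddCircle.toCircle_nsmul]
      push_cast
      ring
    rw [h1, sub_zero, norm_div, norm_mul, norm_div, Complex.norm_natCast]
    have h2 : ‖(fourier m t : ℂ)‖ = 1 := Circle.norm_coe _
    have h3 : ‖q ^ N - 1‖ ≤ 2 := by
      refine (norm_sub_le _ _).trans ?_
      rw [norm_pow, hqn, one_pow, norm_one]; norm_num
    rw [h2, one_mul, div_le_iff₀ hNpos]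
    have h4 : 2 / ‖q - 1‖ / ε ≤ N := hN0.le.trans (by exact_mod_cast (by omega : N0 ≤ N))
    rw [div_le_iff₀ hε] at h4
    calc ‖q ^ N - 1‖ / ‖q - 1‖ ≤ 2 / ‖q - 1‖ := by gcongr
      _ ≤ ε * N := by linarith

theorem weyl (α : ℝ) (hα : Irrational α) (f : C(UnitAddCircle, ℂ)) :
    ∀ ε > 0, ∃ N0 : ℕ, ∀ N ≥ N0, ∀ t, ‖avg α N f t -
      ∫ x : UnitAddCircle, f x ∂AddCircle.haarAddCircle‖ ≤ ε := by
  have hspan : ∀ g ∈ Submodule.span ℂ (Set.range (@fourier 1)),
      ∀ ε > 0, ∃ N0 : ℕ, ∀ N ≥ N0, ∀ t, ‖avg α N g t -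
        ∫ x : UnitAddCircle, g x ∂AddCircle.haarAddCircle‖ ≤ ε := by
    intro g hg
    induction hg using Submodule.span_induction with
    | mem x hx =>
      obtain ⟨n, rfl⟩ := hx
      exact avg_fourier α hα n
    | zero =>
      intro ε hε
      refine ⟨0, fun N _ t => ?_⟩
      simp [avg, hε.le]
    | add x y _ _ hx hy =>
      intro ε hε
      obtain ⟨N1, h1⟩ := hx (ε / 2) (by positivity)
      obtain ⟨N2, h2⟩ := hy (ε / 2) (by positivity)
      refine ⟨max N1 N2, fun N hN t => ?_⟩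
      have a1 := h1 N ((le_max_left _ _).trans hN) t
      have a2 := h2 N ((le_max_right _ _).trans hN) t
      simp only [avg_add, ContinuousMap.add_apply]
      rw [integral_add (cont_integrable x) (cont_integrable y)]
      calc _ = ‖(avg α N x t - ∫ a, x a ∂AddCircle.haarAddCircle) +
            (avg α N y t - ∫ a, y a ∂AddCircle.haarAddCircle)‖ := by congr 1; ring
        _ ≤ _ := norm_add_le _ _
        _ ≤ ε := by linarith
    | smul c x _ hx =>
      intro ε hε
      obtain ⟨N1, h1⟩ := hx (ε / (‖c‖ + 1)) (by positivity)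
      refine ⟨N1, fun N hN t => ?_⟩
      have a1 := h1 N hN t
      simp only [avg_smul, ContinuousMap.smul_apply, smul_eq_mul]
      rw [integral_const_mul, ← mul_sub, norm_mul]
      calc ‖c‖ * _ ≤ ‖c‖ * (ε / (‖c‖ + 1)) := by gcongr
        _ ≤ (‖c‖ + 1) * (ε / (‖c‖ + 1)) := by gcongr; linarith
        _ = ε := by field_simp
  have hf : f ∈ closure ((Submodule.span ℂ (Set.range (@fourier 1)) : Submodule ℂ _) :
      Set C(UnitAddCircle, ℂ)) := by
    have := span_fourier_closure_eq_top (T := 1)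
    have h2 : f ∈ (Submodule.span ℂ (Set.range (@fourier 1))).topologicalClosure := by
      rw [this]; trivial
    exact h2
  intro ε hε
  obtain ⟨g, hg, hfg⟩ := Metric.mem_closure_iff.mp hf (ε / 4) (by positivity)
  obtain ⟨N0, hN0⟩ := hspan g hg (ε / 4) (by positivity)
  refine ⟨N0, fun N hN t => ?_⟩
  have h1 := hN0 N hN t
  rw [dist_eq_norm] at hfg
  have h2 : avg α N f t = avg α N g t + avg α N (f - g) t := by
    rw [← avg_add]; congr 1; ring
  have h3 : ∫ x : UnitAddCircle, f x ∂AddCircle.haarAddCircle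
      = ∫ x : UnitAddCircle, g x ∂AddCircle.haarAddCircle +
        ∫ x : UnitAddCircle, (f - g) x ∂AddCircle.haarAddCircle := by
    rw [← integral_add (cont_integrable g) (cont_integrable (f - g))]
    congr 1
    ext x
    simp
  have h4 := avg_norm_le α N (f - g) t
  have h5 : ‖∫ x : UnitAddCircle, (f - g) x ∂AddCircle.haarAddCircle‖ ≤ ‖f - g‖ := by
    refine (norm_integral_le_of_norm_le_const (C := ‖f - g‖)
      (Filter.Eventually.of_forall (fun x => (f - g).norm_coe_le_norm x))).trans ?_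
    simp
  rw [h2, h3]
  calc ‖avg α N g t + avg α N (f - g) t - (∫ x : UnitAddCircle, g x ∂AddCircle.haarAddCircle +
        ∫ x : UnitAddCircle, (f - g) x ∂AddCircle.haarAddCircle)‖
      = ‖(avg α N g t - ∫ x : UnitAddCircle, g x ∂AddCircle.haarAddCircle) +
        (avg α N (f - g) t -
        ∫ x : UnitAddCircle, (f - g) x ∂AddCircle.haarAddCircle)‖ := by congr 1; ring
    _ ≤ ‖avg α N g t - ∫ x : UnitAddCircle, g x ∂AddCircle.haarAddCircle‖ +
        (‖avg α N (f - g) t‖ +
        ‖∫ x : UnitAddCircle, (f - g) x ∂AddCircle.haarAddCircle‖) := by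
        refine (norm_add_le _ _).trans ?_
        gcongr
        exact norm_sub_le _ _
    _ ≤ ε := by linarith

/-- real version -/
theorem weyl_real (α : ℝ) (hα : Irrational α) {f : UnitAddCircle → ℝ} (hf : Continuous f) :
    ∀ ε > 0, ∃ N0 : ℕ, ∀ N ≥ N0, ∀ t : UnitAddCircle,
      ∑ n ∈ Finset.range N, f (n • (α : UnitAddCircle) + t) ≤
        N * ((∫ x : UnitAddCircle, f x ∂AddCircle.haarAddCircle) + ε) := by
  intro ε hε
  let F : C(UnitAddCircle, ℂ) := ⟨fun x => (f x : ℂ), Complex.continuous_ofReal.comp hf⟩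
  obtain ⟨N0, hN0⟩ := weyl α hα F ε hε
  refine ⟨N0, fun N hN t => ?_⟩
  have h1 := hN0 N hN t
  rcases Nat.eq_zero_or_pos N with h | h
  · subst h; simp
  have hNpos : (0 : ℝ) < N := by exact_mod_cast h
  have h2 : ∫ x : UnitAddCircle, F x ∂AddCircle.haarAddCircle =
      ((∫ x : UnitAddCircle, f x ∂AddCircle.haarAddCircle : ℝ) : ℂ) := by
    rw [← integral_complex_ofReal]
    rfl
  have h3 : avg α N F t = ((∑ n ∈ Finset.range N, f (n • (α : UnitAddCircle) + t)) / N : ℝ) := by
    unfold avg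
    push_cast
    rfl
  rw [h2, h3, ← Complex.ofReal_sub, Complex.norm_real, Real.norm_eq_abs] at h1
  have h4 := (abs_le.1 h1).2
  have h5 : (∑ n ∈ Finset.range N, f (n • (α : UnitAddCircle) + t)) / N ≤
      (∫ x : UnitAddCircle, f x ∂AddCircle.haarAddCircle) + ε := by linarith
  rw [div_le_iff₀ hNpos] at h5
  linarith

end Pool.Agent.H.MP_e98f69_an
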