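import Pool.Agent.H.MP_e98f69_an.Statement

/-! Arbitrarily small impressions imply a degenerate impression (Baire category). -/

set_option autoImplicit false

open Set Filter Topology Metric

namespace Pool.Agent.H.MP_e98f69_an

/-- the impression of the prime end `ζ` is small of size `ε` -/
def Lev (S : Set ℂ) (φ : ℂ → ℂ) (ε : ℝ) (ζ : ℂ) : Prop :=
  ∃ δ > 0, ∀ z ∈ S, ∀ z' ∈ S, ‖φ z - ζ‖ < δ → ‖φ z' - ζ‖ < δ → ‖z - z'‖ < ε

lemma Lev.mono {S : Set ℂ} {φ : ℂ → ℂ} {ε ε' : ℝ} {ζ : ℂ} (h : Lev S φ ε ζ) (he : ε ≤ ε') :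
    Lev S φ ε' ζ := by
  obtain ⟨δ, hδ, h1⟩ := h
  exact ⟨δ, hδ, fun z hz z' hz' h2 h3 => (h1 z hz z' hz' h2 h3).trans_le he⟩

lemma Lev.isOpen (S : Set ℂ) (φ : ℂ → ℂ) (ε : ℝ) :
    IsOpen {t : UnitAddCircle | Lev S φ ε (toC t)} := isOpen_level S φ ε

namespace Siegel

variable {P Q : Polynomial ℂ} {S : Set ℂ} {θ : ℝ} {φ : ℂ → ℂ} (X : Siegel P Q S θ φ)

include X

theorem lev_rot {ε : ℝ} (hε : 0 < ε) : ∃ ε' > 0, ∀ ζ : ℂ, Lev S φ ε' ζ → Lev S φ ε (rot θ * ζ) := by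
  have huc : UniformContinuousOn (rat P Q) (closure S) :=
    X.bdd.isCompact_closure.uniformContinuousOn_of_continuous
      (fun w hw => (X.rat_cont hw).continuousWithinAt)
  obtain ⟨δ1, hδ1, h1⟩ := Metric.uniformContinuousOn_iff.1 huc ε hε
  refine ⟨δ1, hδ1, fun ζ h => ?_⟩
  obtain ⟨δ, hδ, h2⟩ := h
  refine ⟨δ, hδ, ?_⟩
  have hpre : ∀ z ∈ S, ‖φ z - rot θ * ζ‖ < δ → ∃ w ∈ S, rat P Q w = z ∧ ‖φ w - ζ‖ < δ := by
    intro z hz hz2
    have hne := rot_ne θ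
    have hmem : (rot θ)⁻¹ * φ z ∈ ball (0 : ℂ) 1 := by
      rw [mem_ball_zero_iff, norm_mul, norm_inv, norm_rot, inv_one, one_mul]
      exact mem_ball_zero_iff.1 (X.phi_mem hz)
    refine ⟨X.psi ((rot θ)⁻¹ * φ z), X.psi_mem hmem, ?_, ?_⟩
    · rw [X.rat_psi hmem, mul_inv_cancel_left₀ hne, X.psi_phi hz]
    · rw [X.phi_psi hmem]
      have e : (rot θ)⁻¹ * φ z - ζ = (rot θ)⁻¹ * (φ z - rot θ * ζ) := by
        rw [mul_sub, inv_mul_cancel_left₀ hne]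
      rw [e, norm_mul, norm_inv, norm_rot, inv_one, one_mul]
      exact hz2
  intro z hz z' hz' h3 h4
  obtain ⟨w, hw, rfl, hw2⟩ := hpre z hz h3
  obtain ⟨w', hw', rfl, hw2'⟩ := hpre z' hz' h4
  have h5 := h2 w hw w' hw' hw2 hw2'
  have h6 := h1 w (subset_closure hw) w' (subset_closure hw') (by rwa [dist_eq_norm])
  rwa [dist_eq_norm] at h6

theorem lev_iter (n : ℕ) {ε : ℝ} (hε : 0 < ε) :
    ∃ ε' > 0, ∀ ζ : ℂ, Lev S φ ε' ζ → Lev S φ ε (rot θ ^ n * ζ) := by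
  induction n generalizing ε with
  | zero => exact ⟨ε, hε, fun ζ h => by simpa using h⟩
  | succ n ih =>
    obtain ⟨ε1, h1, h2⟩ := X.lev_rot hε
    obtain ⟨ε2, h3, h4⟩ := ih h1
    refine ⟨ε2, h3, fun ζ h => ?_⟩
    rw [pow_succ', mul_assoc]
    exact h2 _ (h4 _ h)

theorem lev_range (N : ℕ) {ε : ℝ} (hε : 0 < ε) :
    ∃ ε' > 0, ∀ n ≤ N, ∀ ζ : ℂ, Lev S φ ε' ζ → Lev S φ ε (rot θ ^ n * ζ) := by
  induction N with
  | zero =>
    obtain ⟨ε1, h1, h2⟩ := X.lev_iter 0 hε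
    refine ⟨ε1, h1, fun n hn ζ h => ?_⟩
    obtain rfl : n = 0 := by omega
    exact h2 ζ h
  | succ N ih =>
    obtain ⟨ε1, h1, h2⟩ := ih
    obtain ⟨ε2, h3, h4⟩ := X.lev_iter (N + 1) hε
    refine ⟨min ε1 ε2, lt_min h1 h3, fun n hn ζ h => ?_⟩
    rcases Nat.lt_or_ge n (N + 1) with h5 | h5
    · exact h2 n (by omega) ζ (h.mono (min_le_left _ _))
    · obtain rfl : n = N + 1 := by omega
      exact h4 ζ (h.mono (min_le_right _ _))

theorem lev_dense (h : ∀ ε > 0, ∃ ζ : ℂ, ‖ζ‖ = 1 ∧ Lev S φ ε ζ) {ε : ℝ} (hε : 0 < ε) :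
    Dense {t : UnitAddCircle | Lev S φ ε (toC t)} := by
  intro t0
  rw [_root_.mem_closure_iff]
  intro V hV ht0
  -- finitely many rotations of every point meet V
  have hcov : (univ : Set UnitAddCircle) ⊆
      ⋃ n : ℕ, {s : UnitAddCircle | n • (θ : UnitAddCircle) + s ∈ V} := by
    intro s _
    have hd : DenseRange (· • (θ : UnitAddCircle) : ℤ → UnitAddCircle) := by
      rw [AddCircle.denseRange_zsmul_coe_iff, div_one]
      exact X.irr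
    have hm : MapClusterPt (t0 - s) atTop (· • (θ : UnitAddCircle) : ℕ → UnitAddCircle) :=
      ((mapClusterPt_atTop_nsmul_tfae (t0 - s) (θ : UnitAddCircle)).out 0 3).2 (hd (t0 - s))
    have hf := hm.frequently ((hV.preimage (continuous_add_right s)).mem_nhds (by simpa using ht0))
    obtain ⟨n, hn⟩ := hf.exists
    exact mem_iUnion.2 ⟨n, hn⟩
  obtain ⟨T, hT⟩ := isCompact_univ.elim_finite_subcover _
    (fun n : ℕ => hV.preimage (continuous_add_left (n • (θ : UnitAddCircle)))) hcov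
  obtain ⟨ε', hε', h1⟩ := X.lev_range (T.sup id) hε
  obtain ⟨ζ, hζ, h2⟩ := h ε' hε'
  obtain ⟨s, hs⟩ := exists_toC hζ
  obtain ⟨n, hnT, hn⟩ := mem_iUnion₂.1 (hT (mem_univ (s : UnitAddCircle)))
  refine ⟨n • (θ : UnitAddCircle) + s, hn, ?_⟩
  have hle : n ≤ T.sup id := Finset.le_sup (f := id) hnT
  have h3 := h1 n hle ζ h2
  show Lev S φ ε (toC (n • (θ : UnitAddCircle) + s))
  rw [toC_add, toC_nsmul, toC_rot, hs]
  exact h3

/-- If there are arbitrarily small impressions, then there is a degenerate one. -/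
theorem exists_deg (h : ∀ ε > 0, ∃ ζ : ℂ, ‖ζ‖ = 1 ∧ Lev S φ ε ζ) :
    ∃ ζ : ℂ, ‖ζ‖ = 1 ∧ Deg S φ ζ := by
  have hd : Dense (⋂ n : ℕ, {t : UnitAddCircle | Lev S φ (1 / ((n : ℝ) + 1)) (toC t)}) :=
    dense_iInter_of_isOpen_nat (fun n => Lev.isOpen S φ _)
      (fun n => X.lev_dense h (by positivity))
  obtain ⟨t, ht⟩ := hd.nonempty
  refine ⟨toC t, norm_toC t, fun ε hε => ?_⟩
  obtain ⟨n, hn⟩ := exists_nat_one_div_lt hε
  exact (mem_iInter.1 ht n).mono hn.le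

end Siegel

end Pool.Agent.H.MP_e98f69_an
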