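import Pool.Agent.H.MP_e98f69_an.OneDeg

/-! The definitions used in the hand-ins, and the bridge to the working definitions. -/

set_option autoImplicit false

namespace Pool.Agent.H.MP_e98f69_an

/-- `S` is a bounded Siegel disc of the rational function `P / Q` with rotation number `θ` and
linearizing map `φ : S → 𝔻` (maximality of `S` is not required). -/
def IsSiegelDisc (P Q : Polynomial ℂ) (S : Set ℂ) (θ : ℝ) (φ : ℂ → ℂ) : Prop :=
  Q ≠ 0 ∧ IsCoprime P Q ∧ Bornology.IsBounded S ∧ IsOpen S ∧ Irrational θ ∧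
    DifferentiableOn ℂ φ S ∧ Set.InjOn φ S ∧ φ '' S = Metric.ball (0 : ℂ) 1 ∧
    ∀ z ∈ S, P.eval z / Q.eval z ∈ S ∧
      φ (P.eval z / Q.eval z) = Complex.exp (2 * Real.pi * Complex.I * (θ : ℂ)) * φ z

/-- The prime end of `S` corresponding to the point `ζ` of the unit circle under `φ` has
degenerate impression, in other words, `φ⁻¹` extends continuously to `ζ`. -/
def DegenerateAt (S : Set ℂ) (φ : ℂ → ℂ) (ζ : ℂ) : Prop :=
  ∀ ε > 0, ∃ δ > 0, ∀ z ∈ S, ∀ z' ∈ S, ‖φ z - ζ‖ < δ → ‖φ z' - ζ‖ < δ → ‖z - z'‖ < ε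

theorem IsSiegelDisc.siegel {P Q : Polynomial ℂ} {S : Set ℂ} {θ : ℝ} {φ : ℂ → ℂ}
    (h : IsSiegelDisc P Q S θ φ) : Siegel P Q S θ φ := by
  obtain ⟨h1, h2, h3, h4, h5, h6, h7, h8, h9⟩ := h
  exact ⟨h1, h2, h3, h4, h5, h6, h7, h8, h9⟩

end Pool.Agent.H.MP_e98f69_an
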